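import Pool.Agent.Lib.MP_ab8df0_nt.B.Auto2

/-! Field identities and valuations for the second class of the quartic equation. -/

namespace Pool.Agent.Lib.MP_ab8df0_nt.T.B8b

open Pool.Agent.Lib.MP_ab8df0_nt.B WithZero

variable {K : Type} [Field K]

theorem sqA [CharZero K] {S k t p mu : K} (hk : k ≠ 0) (ht : t ≠ 0)
    (hp : p ^ 2 = 1 + k ^ 2 * t ^ 2) (hm : 1 + p = 2 * S * mu ^ 2) :
    IsSquare (S * (p + k * t)) := by
  have h0 : mu ≠ 0 := fun h => mul_ne_zero (pow_ne_zero 2 hk) (pow_ne_zero 2 ht) (by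
    rw [h] at hm
    linear_combination (p - 1) * hm - hp)
  refine ⟨(1 + p + k * t) / (2 * mu), ?_⟩
  field_simp
  linear_combination (-2 * (p + k * t)) * hm + hp

theorem exB {S A1 A2 : K} (hS : S ≠ 0) (h1 : IsSquare (S * A1)) (h2 : IsSquare (-(S * A2))) :
    ∃ B : K, B ^ 2 = -(A1 * A2) := by
  obtain ⟨e1, h1⟩ := h1
  obtain ⟨e2, h2⟩ := h2
  refine ⟨e1 * e2 / S, ?_⟩
  field_simp
  linear_combination (-(e2 * e2)) * h1 - (S * A1) * h2

theorem neB {k1 k t p q B : K} (hp : p ^ 2 = 1 + k1 ^ 2 * t ^ 2) (hq : q ^ 2 = 1 + k ^ 2 * t ^ 2)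
    (hB : B ^ 2 = -((p + k1 * t) * (q + k * t))) : B ≠ 0 := by
  rintro rfl
  have : (1 : K) = 0 := by
    linear_combination ((p - k1 * t) * (q - k * t)) * hB - (q ^ 2 - k ^ 2 * t ^ 2) * hp - hq
  exact one_ne_zero this

theorem onE {f k t p q B d : K} (hf : f ^ 2 = f + 1)
    (hp : p ^ 2 = 1 + ((2 * f + 1) * k) ^ 2 * t ^ 2) (hq : q ^ 2 = 1 + k ^ 2 * t ^ 2)
    (hB : B ^ 2 = -((p + (2 * f + 1) * k * t) * (q + k * t))) (hd : IsSquare (B * d)) :
    ∃ y : K, On (4 * (f * d)) (-(4 * (f * d ^ 2))) (-(f * d) * ((B + 1) ^ 2 * B⁻¹)) y := by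
  have h0 := neB hp hq hB
  obtain ⟨r, hr⟩ := hd
  obtain ⟨g, hg⟩ : ∃ g : K, g = 2 * f + 1 := ⟨_, rfl⟩
  rw [← hg] at hp hB
  obtain ⟨W, hW⟩ : ∃ W : K, W = q - k * t := ⟨_, rfl⟩
  have a1 : (q + k * t) * W = 1 := by rw [hW]; linear_combination hq
  have a2 : B ^ 2 * W = -(p + g * k * t) := by
    linear_combination W * hB - (p + g * k * t) * a1
  have a3 : B ^ 2 * W * (p - g * k * t) = -1 := by
    linear_combination (p - g * k * t) * a2 - hp
  have key : W ^ 2 * B ^ 2 * (B ^ 2 - g) = 1 - g * B ^ 2 := by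
    linear_combination (B ^ 2 * W) * a2 - a3 - g * B ^ 2 * a1 - g * B ^ 2 * W * hW
  refine ⟨d * r * (B + 1) * (B ^ 2 - g) * W / B, ?_⟩
  have e1 : (d * r * (B + 1) * (B ^ 2 - g) * W / B) ^ 2 =
      d ^ 2 * (r * r) * (B + 1) ^ 2 * (B ^ 2 - g) * (W ^ 2 * B ^ 2 * (B ^ 2 - g)) / B ^ 4 := by
    field_simp
  have e2 : (-(f * d) * ((B + 1) ^ 2 * B⁻¹)) * ((-(f * d) * ((B + 1) ^ 2 * B⁻¹)) ^ 2 +
      4 * (f * d) * (-(f * d) * ((B + 1) ^ 2 * B⁻¹)) + -(4 * (f * d ^ 2))) =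
      d ^ 3 * B * (B + 1) ^ 2 * (-f) * (f ^ 2 * (B + 1) ^ 4 - 4 * f ^ 2 * B * (B + 1) ^ 2
        - 4 * f * B ^ 2) / B ^ 4 := by
    field_simp
    ring
  rw [On, e1, e2, ← hr, key, hg]
  congr 1
  linear_combination (d ^ 3 * B * (B + 1) ^ 2 * (f + 1) * (B ^ 2 - 1) ^ 2) * hf

theorem exE (w : Valuation K Gam) {x : K} (hx : x ≠ 0) : ∃ n : ℤ, w x = exp n :=
  ⟨log (w x), (exp_log ((Valuation.ne_zero_iff w).2 hx)).symm⟩

theorem vA (w : Valuation K Gam) {A A' d : K} (h : A * A' = 1) (hd : A - A' = d) {a : ℤ}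
    (ha : w A = exp a) :
    (w d ≤ 1 → a = 0) ∧ ∀ n : ℤ, 0 < n → w d = exp n → a = n ∨ a = -n := by
  obtain ⟨b, hb⟩ := exE w (right_ne_zero_of_mul_eq_one h)
  have h1 := congrArg w h
  rw [map_mul, map_one, ha, hb, ← exp_add, ← exp_zero, exp_inj] at h1
  subst hd
  rcases lt_trichotomy a 0 with q | q | q
  · have e : w (A - A') = exp b := by
      rw [← hb]
      exact w.map_sub_eq_of_lt_right (by rw [ha, hb, exp_lt_exp]; omega)
    rw [e, ← exp_zero, exp_le_exp]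
    exact ⟨fun _ => by omega, fun n _ h2 => by rw [exp_inj] at h2; omega⟩
  · refine ⟨fun _ => q, fun n hn h2 => ?_⟩
    have e := w.map_sub A A'
    rw [h2, ha, hb, le_max_iff, exp_le_exp, exp_le_exp] at e
    omega
  · have e : w (A - A') = exp a := by
      rw [← ha]
      exact w.map_sub_eq_of_lt_left (by rw [ha, hb, exp_lt_exp]; omega)
    rw [e, ← exp_zero, exp_le_exp]
    exact ⟨fun _ => by omega, fun n _ h2 => by rw [exp_inj] at h2; omega⟩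

theorem evenB (w : Valuation K Gam) {s v : ℤ} (hc : IsCoprime s (30 * v)) (hs : (s : K) ≠ 0)
    {k1 k p q B : K} (h1 : w k1 ≤ 1) (h2 : w k ≤ 1) (h45 : (k1 * k) ^ 2 = 45)
    (hp : p ^ 2 = 1 + k1 ^ 2 * ((v : K) / s ^ 2) ^ 2) (hq : q ^ 2 = 1 + k ^ 2 * ((v : K) / s ^ 2) ^ 2)
    (hB : B ^ 2 = -((p + k1 * (v / s ^ 2)) * (q + k * (v / s ^ 2)))) :
    ∃ n : ℤ, w B = exp (2 * n) := by
  have m1 : (p + k1 * (v / s ^ 2)) * (p - k1 * (v / s ^ 2)) = 1 := by linear_combination hp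
  have m2 : (q + k * (v / s ^ 2)) * (q - k * (v / s ^ 2)) = 1 := by linear_combination hq
  obtain ⟨b, hb⟩ := exE w (neB hp hq hB)
  obtain ⟨a1, ha1⟩ := exE w (left_ne_zero_of_mul_eq_one m1)
  obtain ⟨a2, ha2⟩ := exE w (left_ne_zero_of_mul_eq_one m2)
  obtain ⟨n, hn⟩ := exE w hs
  have e := congrArg w hB
  rw [Valuation.map_neg, map_mul, pow_two, map_mul, hb, ha1, ha2, ← exp_add, ← exp_add, exp_inj] at e
  have v1 := vA w m1 (d := k1 * (2 * v : ℤ) / (s * s)) (by push_cast; ring) ha1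
  have v2 := vA w m2 (d := k * (2 * v : ℤ) / (s * s)) (by push_cast; ring) ha2
  rw [map_div₀, map_mul w (s : K), hn, ← exp_add] at v1 v2
  have u : ∀ x : K, w x ≤ 1 → ∀ z : ℤ, w (x * z) ≤ 1 := fun x hx z => by
    rw [map_mul]; exact mul_le_one' hx (Au.int_le w z)
  have hn0 : n ≤ 0 := by
    have := Au.int_le w s
    rwa [hn, ← exp_zero, exp_le_exp] at this
  rw [hb]
  rcases hn0.eq_or_lt with rfl | hlt
  · rw [add_zero, exp_zero, div_one] at v1 v2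
    have := v1.1 (u _ h1 _)
    have := v2.1 (u _ h2 _)
    exact ⟨0, by congr 1; omega⟩
  · have w30 : w ((30 * v : ℤ) : K) = 1 := by
      refine le_antisymm (Au.int_le w _) (not_lt.1 fun h => ?_)
      obtain ⟨x, y, h3⟩ := hc
      have h4 := congrArg (Int.cast : ℤ → K) h3
      rw [Int.cast_add, Int.cast_mul, Int.cast_mul y, Int.cast_one] at h4
      have h5 : w (s : K) < 1 := by rw [hn, ← exp_zero, exp_lt_exp]; exact hlt
      have h6 := w.map_add_lt (Au.lt_mul w h5 (Au.int_le w x)) (Au.lt_mul w h (Au.int_le w y))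
      rw [mul_comm, mul_comm _ (y : K), h4, map_one] at h6
      exact lt_irrefl _ h6
    have un : ∀ x y : K, w x ≤ 1 → w y ≤ 1 → (x * y) ^ 2 = 45 → w (x * (2 * v : ℤ)) = 1 := by
      intro x y hx hy h
      refine Au.unit_of_mul w (u _ hx _) (u (x * (y * y)) ?_ (10 * v)) ?_
      · rw [map_mul, map_mul]; exact mul_le_one' hx (mul_le_one' hy hy)
      · rw [show x * (2 * v : ℤ) * (x * (y * y) * (10 * v : ℤ)) = (30 * v : ℤ) * (30 * v : ℤ) by
          push_cast; linear_combination (20 * (v : K) ^ 2) * h, map_mul, w30, one_mul]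
    rw [un k1 k h1 h2 h45, one_div, ← exp_neg] at v1
    rw [un k k1 h2 h1 (by rw [mul_comm, h45]), one_div, ← exp_neg] at v2
    have c1 := v1.2 _ (by omega) rfl
    have c2 := v2.2 _ (by omega) rfl
    exact ⟨b / 2, by congr 1; omega⟩

end Pool.Agent.Lib.MP_ab8df0_nt.T.B8b
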