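import Pool.Agent.Lib.MP_ab8df0_nt.B.Auto2
import Pool.Agent.Lib.MP_ab8df0_nt.P.P15D

/-! Constants and hypotheses. -/

set_option maxRecDepth 100000

namespace Pool.Agent.Lib.MP_ab8df0_nt.T.B8b1

open Pool.Agent.Lib.MP_ab8df0_nt.B Pool.Agent.Lib.MP_ab8df0_nt.P

def dl0 : List ℤ × ℕ := ([-2, 0, 1], 1)

def dl1 : List ℤ × ℕ := ([-1, -2, 2], 1)

def vs : Cs := [([0, 1], 1), ([], 1), ([], 1), ([], 1), ([], 1), 
  ([2], 1),
  ([0, -1], 1),
  ([-2, 0, 1], 1),
  ([1, -1], 1),
  ([21, -36, 0, 12], 1),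
  ([9, 36, 0, -12], 1),
  ([5, -2, -2], 1),
  ([3, 8, -2, -2], 1),
  ([1, -6, 0, 2], 1),
  ([3, -18, 0, 6], 1),
  ([1, -3, 0, 1], 1)]

def M (t0 : ℤ) (k0 : ℕ) : List Hyp := [
  .disc 1 t0 k0,
  .sqr 2 (.add (.num 1) (.mul (.var 9) (.sq (.var 1)))),
  .sqr 3 (.add (.num 1) (.mul (.var 10) (.sq (.var 1)))),
  .cls (.mul (.var 13) (.add (.var 2) (.mul (.var 11) (.var 1)))) [],
  .cls (.neg (.mul (.var 13) (.add (.var 3) (.mul (.var 12) (.var 1))))) [],
  .sqr 4 (.neg (.add (.mul (.var 2) (.var 3)) (.add (.mul (.var 1) (.add (.mul (.var 11) (.var 3)) (.mul (.var 12) (.var 2)))) (.mul (.var 14) (.sq (.var 1)))))),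
  .cls (.var 4) [5, 6, 7, 8],
  .out (.var 4) [5, 6, 7, 8] [false, false, true, false],
  .out (.var 4) [5, 6, 7, 8] [false, true, true, true]]

def k0 : Cut := ⟨[0], [], [[true, false, false, false, false]], [[false, false, true, false, false], [true, true, false, false, false], [false, false, false, false, true], [true, false, false, true, false]], [[true, false, false, false, false], [true, false, true, false, false], [false, true, false, false, false], [true, false, false, false, true], [false, false, false, true, false]]⟩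

def A : List AH := [
  ]

theorem auto : (baseOk 4 vs && A.all (AH.ok FDP15 4 vs)) = true := by decide +kernel

end Pool.Agent.Lib.MP_ab8df0_nt.T.B8b1

/-! Proof trees. -/

set_option maxRecDepth 100000

namespace Pool.Agent.Lib.MP_ab8df0_nt.T.B8b1

open Pool.Agent.Lib.MP_ab8df0_nt.B Pool.Agent.Lib.MP_ab8df0_nt.P

def r0_0 : Tree := .set 5 [[]] (.set 6 [[]] (.set 7 [[]] (.set 8 [[]] (.set 9 [[]] (.set 10 [[]] (.set 11 [[]] (.set 12 [[]] (.set 13 [[]] (.set 14 [[]] (.set 15 [[]] (.piv [5, 6, 7, 8] [[ce 0 264 1 0 0x0], [ce 0 264 6 4 0xf99c55], [ce 0 264 6 4 0x6eb58c], [ce 0 264 6 4 0x729b95]] (.piv [] [] (.disc 16 (.root 17 0 [] (ce 0 264 8 4 0x9ae0f2f9) (.dead 19 26 [[]] [] [ce 0 264 6 4 0x820001]) (.root 18 0 [] (ce 0 264 8 4 0x1a60b261) (.root 21 0 [] (ce 0 264 7 4 0xf978735) (.conc 22 25 23 [[]] [ce 0 264 6 4 0x1f1c26]) (.conc 22 25 24 [[]] [ce 0 264 1 1 0x1])) (.dead 20 26 [[]] [] [ce 0 264 6 3 0x20801]))))))))))))))))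

theorem r0 : run FDP15.ds FDP15.es [[]] vs.length (fullH 4 vs (M 2 3) A) r0_0 = true := by
  decide +kernel

end Pool.Agent.Lib.MP_ab8df0_nt.T.B8b1

/-! The result of the computation. -/

set_option maxRecDepth 100000

namespace Pool.Agent.Lib.MP_ab8df0_nt.T.B8b1

open Pool.Agent.Lib.MP_ab8df0_nt.B Pool.Agent.Lib.MP_ab8df0_nt.P

theorem rph {K : Type} [Field K] [NumberField K] {a : K} {pl : List (Place K)} {ph : List (K →+* ℝ)}
    {w : List (IsDedekindDomain.HeightOneSpectrum (NumberField.RingOfIntegers K))}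
    (hP : Pack K FDP15 a pl ph w) : cval a vs 15 = (1 + (((-3) * a) + (a * ((a) ^ 2)))) := by
  have h : (cval a vs 15 + (-((((1 : ℤ) : K) + ((((-3 : ℤ) : K) * cval a vs 0) + (cval a vs 0 * ((cval a vs 0) ^ 2))))))) = 0 :=
    hP.rel vs (.add (.var 15) (.neg (.add (.num 1) (.add (.mul (.num (-3)) (.var 0)) (.mul (.var 0) (.sq (.var 0))))))) (by decide +kernel)
  have h0 : cval a vs 0 = a := by simp [cval, vs, ev]
  try rw [h0] at h
  try push_cast at h
  linear_combination h

theorem rk {K : Type} [Field K] [NumberField K] {a : K} {pl : List (Place K)} {ph : List (K →+* ℝ)}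
    {w : List (IsDedekindDomain.HeightOneSpectrum (NumberField.RingOfIntegers K))}
    (hP : Pack K FDP15 a pl ph w) : cval a vs 12 = (3 + ((8 * a) + (((-2) * ((a) ^ 2)) + ((-2) * (a * ((a) ^ 2)))))) := by
  have h : (cval a vs 12 + (-((((3 : ℤ) : K) + ((((8 : ℤ) : K) * cval a vs 0) + ((((-2 : ℤ) : K) * ((cval a vs 0) ^ 2)) + (((-2 : ℤ) : K) * (cval a vs 0 * ((cval a vs 0) ^ 2))))))))) = 0 :=
    hP.rel vs (.add (.var 12) (.neg (.add (.num 3) (.add (.mul (.num 8) (.var 0)) (.add (.mul (.num (-2)) (.sq (.var 0))) (.mul (.num (-2)) (.mul (.var 0) (.sq (.var 0))))))))) (by decide +kernel)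
  have h0 : cval a vs 0 = a := by simp [cval, vs, ev]
  try rw [h0] at h
  try push_cast at h
  linear_combination h

theorem rc1 {K : Type} [Field K] [NumberField K] {a : K} {pl : List (Place K)} {ph : List (K →+* ℝ)}
    {w : List (IsDedekindDomain.HeightOneSpectrum (NumberField.RingOfIntegers K))}
    (hP : Pack K FDP15 a pl ph w) : cval a vs 9 = (9 + (12 * cval a vs 15)) := by
  have h : (cval a vs 9 + (-((((9 : ℤ) : K) + (((12 : ℤ) : K) * cval a vs 15))))) = 0 :=
    hP.rel vs (.add (.var 9) (.neg (.add (.num 9) (.mul (.num 12) (.var 15))))) (by decide +kernel)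
  have h0 : cval a vs 0 = a := by simp [cval, vs, ev]
  try rw [h0] at h
  try push_cast at h
  linear_combination h

theorem rc2 {K : Type} [Field K] [NumberField K] {a : K} {pl : List (Place K)} {ph : List (K →+* ℝ)}
    {w : List (IsDedekindDomain.HeightOneSpectrum (NumberField.RingOfIntegers K))}
    (hP : Pack K FDP15 a pl ph w) : cval a vs 10 = (21 - (12 * cval a vs 15)) := by
  have h : (cval a vs 10 + (-((((21 : ℤ) : K) + (-((((12 : ℤ) : K) * cval a vs 15))))))) = 0 :=
    hP.rel vs (.add (.var 10) (.neg (.add (.num 21) (.neg (.mul (.num 12) (.var 15)))))) (by decide +kernel)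
  have h0 : cval a vs 0 = a := by simp [cval, vs, ev]
  try rw [h0] at h
  try push_cast at h
  linear_combination h

theorem rk1 {K : Type} [Field K] [NumberField K] {a : K} {pl : List (Place K)} {ph : List (K →+* ℝ)}
    {w : List (IsDedekindDomain.HeightOneSpectrum (NumberField.RingOfIntegers K))}
    (hP : Pack K FDP15 a pl ph w) : cval a vs 11 = (((2 * cval a vs 15) + 1) * cval a vs 12) := by
  have h : (cval a vs 11 + (-((((((2 : ℤ) : K) * cval a vs 15) + ((1 : ℤ) : K)) * cval a vs 12)))) = 0 :=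
    hP.rel vs (.add (.var 11) (.neg (.mul (.add (.mul (.num 2) (.var 15)) (.num 1)) (.var 12)))) (by decide +kernel)
  have h0 : cval a vs 0 = a := by simp [cval, vs, ev]
  try rw [h0] at h
  try push_cast at h
  linear_combination h

theorem rs5 {K : Type} [Field K] [NumberField K] {a : K} {pl : List (Place K)} {ph : List (K →+* ℝ)}
    {w : List (IsDedekindDomain.HeightOneSpectrum (NumberField.RingOfIntegers K))}
    (hP : Pack K FDP15 a pl ph w) : cval a vs 13 = ((2 * cval a vs 15) - 1) := by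
  have h : (cval a vs 13 + (-(((((2 : ℤ) : K) * cval a vs 15) + (-(((1 : ℤ) : K))))))) = 0 :=
    hP.rel vs (.add (.var 13) (.neg (.add (.mul (.num 2) (.var 15)) (.neg (.num 1))))) (by decide +kernel)
  have h0 : cval a vs 0 = a := by simp [cval, vs, ev]
  try rw [h0] at h
  try push_cast at h
  linear_combination h

theorem rk12 {K : Type} [Field K] [NumberField K] {a : K} {pl : List (Place K)} {ph : List (K →+* ℝ)}
    {w : List (IsDedekindDomain.HeightOneSpectrum (NumberField.RingOfIntegers K))}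
    (hP : Pack K FDP15 a pl ph w) : cval a vs 14 = (cval a vs 11 * cval a vs 12) := by
  have h : (cval a vs 14 + (-((cval a vs 11 * cval a vs 12)))) = 0 :=
    hP.rel vs (.add (.var 14) (.neg (.mul (.var 11) (.var 12)))) (by decide +kernel)
  have h0 : cval a vs 0 = a := by simp [cval, vs, ev]
  try rw [h0] at h
  try push_cast at h
  linear_combination h

theorem rp2 {K : Type} [Field K] [NumberField K] {a : K} {pl : List (Place K)} {ph : List (K →+* ℝ)}
    {w : List (IsDedekindDomain.HeightOneSpectrum (NumberField.RingOfIntegers K))}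
    (hP : Pack K FDP15 a pl ph w) : ((cval a vs 15) ^ 2) = (cval a vs 15 + 1) := by
  have h : (((cval a vs 15) ^ 2) + (-((cval a vs 15 + ((1 : ℤ) : K))))) = 0 :=
    hP.rel vs (.add (.sq (.var 15)) (.neg (.add (.var 15) (.num 1)))) (by decide +kernel)
  have h0 : cval a vs 0 = a := by simp [cval, vs, ev]
  try rw [h0] at h
  try push_cast at h
  linear_combination h

theorem rk2 {K : Type} [Field K] [NumberField K] {a : K} {pl : List (Place K)} {ph : List (K →+* ℝ)}
    {w : List (IsDedekindDomain.HeightOneSpectrum (NumberField.RingOfIntegers K))}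
    (hP : Pack K FDP15 a pl ph w) : ((cval a vs 12) ^ 2) = (21 - (12 * cval a vs 15)) := by
  have h : (((cval a vs 12) ^ 2) + (-((((21 : ℤ) : K) + (-((((12 : ℤ) : K) * cval a vs 15))))))) = 0 :=
    hP.rel vs (.add (.sq (.var 12)) (.neg (.add (.num 21) (.neg (.mul (.num 12) (.var 15)))))) (by decide +kernel)
  have h0 : cval a vs 0 = a := by simp [cval, vs, ev]
  try rw [h0] at h
  try push_cast at h
  linear_combination h

theorem core {K : Type} [Field K] [NumberField K] {a : K} {pl : List (Place K)} {ph : List (K →+* ℝ)}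
    {w : List (IsDedekindDomain.HeightOneSpectrum (NumberField.RingOfIntegers K))}
    (hP : Pack K FDP15 a pl ph w) {G : Prop} (t p q B : K)
    (hdisc : Q2 3 (t - ((2 : ℤ) : K)))
    (hrp : p ^ 2 = (1 + (cval a vs 9 * ((t) ^ 2))))
    (hrq : q ^ 2 = (1 + (cval a vs 10 * ((t) ^ 2))))
    (hcp : IsSquare (cval a vs 13 * (p + (cval a vs 11 * t))))
    (hcq : IsSquare (-((cval a vs 13 * (q + (cval a vs 12 * t))))))
    (hrB : B ^ 2 = (-(((p * q) + ((t * ((cval a vs 11 * q) + (cval a vs 12 * p))) + (cval a vs 14 * ((t) ^ 2)))))))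
    (hcls : ∀ v : IsDedekindDomain.HeightOneSpectrum (NumberField.RingOfIntegers K), ((2 : ℕ) : NumberField.RingOfIntegers K) ∉ v.asIdeal →
      ∃ k : ℤ, v.valuation K B = WithZero.exp (2 * k))
    (hclsre : ∀ i ∈ [0], ∀ φ, ph[i]? = some φ → 0 < φ B)
    (hout0 : IsSquare (B * (ev a dl0.1 / (dl0.2 : K))) → G)
    (hout1 : IsSquare (B * (ev a dl1.1 / (dl1.2 : K))) → G) :
    G := by
  refine hP.cover (fr := [t, p, q, B]) (M := M) (cs := [[]]) rfl auto
    (l := [(2, 3)]) (by decide) ?_ hdisc fun tt kk hq => ?_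
  · exact List.forall_mem_cons.2 ⟨⟨_, r0⟩, fun _ h => absurd h List.not_mem_nil⟩
  · refine List.forall_mem_cons.2 ⟨?_, List.forall_mem_cons.2 ⟨?_, List.forall_mem_cons.2 ⟨?_, List.forall_mem_cons.2 ⟨?_, List.forall_mem_cons.2 ⟨?_, List.forall_mem_cons.2 ⟨?_, List.forall_mem_cons.2 ⟨?_, List.forall_mem_cons.2 ⟨?_, List.forall_mem_cons.2 ⟨?_, fun _ h => absurd h List.not_mem_nil⟩⟩⟩⟩⟩⟩⟩⟩⟩
    · exact hq
    · show p ^ 2 = (((1 : ℤ) : K) + (cval a vs 9 * ((t) ^ 2)))
      try push_cast
      linear_combination hrp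
    · show q ^ 2 = (((1 : ℤ) : K) + (cval a vs 10 * ((t) ^ 2)))
      try push_cast
      linear_combination hrq
    · exact span_of_isSquare (x := (cval a vs 13 * (p + (cval a vs 11 * t)))) ((by push_cast; ring : (cval a vs 13 * (p + (cval a vs 11 * t))) = (cval a vs 13 * (p + (cval a vs 11 * t)))) ▸ hcp)
    · exact span_of_isSquare (x := (-((cval a vs 13 * (q + (cval a vs 12 * t)))))) ((by push_cast; ring : (-((cval a vs 13 * (q + (cval a vs 12 * t))))) = (-((cval a vs 13 * (q + (cval a vs 12 * t)))))) ▸ hcq)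
    · show B ^ 2 = (-(((p * q) + ((t * ((cval a vs 11 * q) + (cval a vs 12 * p))) + (cval a vs 14 * ((t) ^ 2))))))
      try push_cast
      linear_combination hrB
    · exact fun h0 => hP.span_cut (nf := 4) (vs := vs) (x := B) (fr := [t, p, q, B]) rfl k0 (by decide +kernel) h0 ((by push_cast; ring : B = B) ▸ hcls) ((by push_cast; ring : B = B) ▸ hclsre) (fun _ h => absurd h List.not_mem_nil)
    · exact fun h0 => hout0 ((by push_cast; ring : B = B) ▸ hP.out (nf := 4) (vs := vs) (x := B) (fr := [t, p, q, B]) rfl dl0 ([1], 1) (by decide +kernel) h0)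
    · exact fun h0 => hout1 ((by push_cast; ring : B = B) ▸ hP.out (nf := 4) (vs := vs) (x := B) (fr := [t, p, q, B]) rfl dl1 ([1], 1) (by decide +kernel) h0)

end Pool.Agent.Lib.MP_ab8df0_nt.T.B8b1

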