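import Pool.Agent.Lib.MP_ab8df0_nt.B.Auto2
import Pool.Agent.Lib.MP_ab8df0_nt.P.P15D

/-! Constants and hypotheses. -/

set_option maxRecDepth 100000

namespace Pool.Agent.Lib.MP_ab8df0_nt.T.B8b2

open Pool.Agent.Lib.MP_ab8df0_nt.B Pool.Agent.Lib.MP_ab8df0_nt.P

def vs : Cs := [([0, 1], 1), ([], 1), ([], 1), ([], 1), ([], 1), ([], 1), ([], 1), ([], 1), 
  ([-12, 4, 4], 1),
  ([-20, 24, 4, -8], 1),
  ([24, -8, -8], 1),
  ([208, -256, -32, 80], 1),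
  ([2], 1),
  ([0, -1, 1], 1),
  ([-2, 2, 1, -1], 1),
  ([0, -2, 0, 1], 1),
  ([21, -36, 0, 12], 1),
  ([9, 36, 0, -12], 1),
  ([5, -2, -2], 1),
  ([3, 8, -2, -2], 1),
  ([1, -6, 0, 2], 1),
  ([-2, 0, 1], 1),
  ([3, -1, -1], 1),
  ([3, -18, 0, 6], 1),
  ([1, -3, 0, 1], 1),
  ([-220, -1016, 336, 408], 1),
  ([8712, 39456, -13128, -15856], 1),
  ([68, -48, -16, 12], 1),
  ([-688, 552, 168, -144], 1)]

def c0 : EC := ⟨8, 9, 10, 11, [12, 13, 14], [12, 13, 15]⟩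

def M (t0 : ℤ) (k0 : ℕ) : List Hyp := [
  .disc 1 t0 k0,
  .disc 1 t0 k0,
  .sqr 2 (.add (.num 1) (.mul (.var 16) (.sq (.var 1)))),
  .sqr 3 (.add (.num 1) (.mul (.var 17) (.sq (.var 1)))),
  .cls (.mul (.var 20) (.add (.var 2) (.mul (.var 18) (.var 1)))) [],
  .cls (.neg (.mul (.var 20) (.add (.var 3) (.mul (.var 19) (.var 1))))) [],
  .sqr 4 (.neg (.add (.mul (.var 2) (.var 3)) (.add (.mul (.var 1) (.add (.mul (.var 18) (.var 3)) (.mul (.var 19) (.var 2)))) (.mul (.var 23) (.sq (.var 1)))))),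
  .cls (.mul (.var 4) (.var 21)) [],
  .eq 5 (.mul (.sq (.add (.var 4) (.num 1))) (.inv (.var 4))),
  .eq 6 (.mul (.var 22) (.var 5)),
  .on c0 false 6 7]

def k0 : Cut := ⟨[0, 2], [], [[true, false, false, false, false], [true, true, false, false, false]], [[false, false, true, false, false], [false, true, false, true, false], [true, false, false, true, true]], [[true, false, false, false, false], [true, true, false, false, false], [false, false, true, false, false], [true, true, false, true, false], [false, true, false, true, true]]⟩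

def k1 : Cut := ⟨[1, 3], [], [[true, false, false, false, false], [true, true, false, false, false]], [[false, false, true, false, false], [false, true, false, true, false], [false, true, false, false, true]], [[true, false, false, false, false], [true, true, false, false, false], [false, false, true, false, false], [true, true, false, true, false], [true, true, false, false, true]]⟩

def A : List AH := [
  .ec c0 4 ([11, 53, -5, -15], 4) ([-29, -138, 13, 39], 16) k0 k1,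
  .on c0 true 25 26,
  .on c0 true 27 28]

theorem auto : (baseOk 7 vs && A.all (AH.ok FDP15 7 vs)) = true := by decide +kernel

end Pool.Agent.Lib.MP_ab8df0_nt.T.B8b2

/-! Proof trees. -/

set_option maxRecDepth 100000

namespace Pool.Agent.Lib.MP_ab8df0_nt.T.B8b2

open Pool.Agent.Lib.MP_ab8df0_nt.B Pool.Agent.Lib.MP_ab8df0_nt.P

def r0_1 : Tree := .split 30 (.root 31 0 [] (ce 0 264 12 4 0xc3ac00952cd9) (.dead 33 45 [[]] [] [ce 0 264 6 4 0x820001]) (.root 32 0 [] (ce 0 264 12 4 0x43a000952d61) (.root 35 0 [] (ce 0 264 11 4 0x590f9bf035) (.set 37 [[ce 0 264 10 4 0x8403e748d1]] (.set 38 [[]] (.yrt 39 [] (ce 2 264 10 4 0x52a4280a45) (.tr 46 [[ce (-2) 264 10 4 0x2494102aaf]] (.half 40 48 43 [ce 0 264 6 4 0x2fd8e7] (ce 0 264 10 4 0x990c724b4d) (.fin 40 48 49 [[ce 0 264 9 4 0x1f3417af]] (.add 50 41 false [[ce (-4) 264 6 4 0x85f8e0]] (.half 40 54 44 [ce 0 264 6 4 0x9d8a62] (ce 0 264 7 4 0x7e9a2bd)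 (.fin 40 54 55 [[ce 0 264 6 4 0x5c0852]] (.set 57 [[ce 0 264 5 4 0xbe0ed]] (.set 58 [[]] (.half 40 56 43 [ce 0 264 6 4 0xdcaa50] (ce 0 264 7 4 0xe3684e3) (.fin 40 56 60 [[ce 0 264 6 4 0xbdaa60]] (.edead 40 61 44 [false, true, false] [ce (-1) 264 5 4 0x76635])))))))))))))) (.dead 36 45 [[]] [] [ce 0 264 6 4 0x2eb5bc])) (.dead 34 45 [[]] [] [ce 0 264 6 3 0x20801]))) (.root 31 0 [] (ce 0 264 12 4 0xb3ac00c52959) (.dead 33 45 [[]] [] [ce 0 264 6 4 0x820001]) (.root 32 0 [] (ce 0 264 12 4 0x33a000c52fe1) (.root 35 0 [] (ce 0 264 11 4 0xcd8cf85f475) (.set 37 [[ce 0 264 10 4 0xb433ee4891]] (.set 38 [[]] (.yrt 39 [] (ce 2 264 10 4 0x1a9e270ae5) (.tr 46 [[ce (-2) 264 10 4 0x94841f2bef]] (.half 40 48 43 [ce 0 264 6 4 0x2dd8e7] (ce 0 264 10 4 0x11107cc92d) (.fin 40 48 49 [[ce 0 264 9 4 0x618b5176f]] (.add 50 41 false [[ce (-4) 264 6 4 0x5fcf0]] (.half 40 54 44 [ce 0 264 6 4 0x1e8262] (ce 0 264 7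 4 0x7f19aed) (.fin 40 54 55 [[ce 0 264 6 4 0xdd0052]] (.set 57 [[ce 0 264 5 4 0xbe0ed]] (.set 58 [[]] (.half 40 56 43 [ce 0 264 6 4 0x5daa50] (ce 0 264 7 4 0xa26bcb3) (.fin 40 56 60 [[ce 0 264 6 4 0x3eaa60]] (.edead 40 61 44 [false, true, false] [ce (-1) 264 5 4 0x76635])))))))))))))) (.dead 36 45 [[]] [] [ce 0 264 6 4 0x2eb5bc])) (.dead 34 45 [[]] [] [ce 0 264 6 3 0x20801])))

def r0_3 : Tree := .set 37 [[ce 0 264 10 4 0xc22debab09]] (.set 38 [[]] (.yrt 39 [] (ce 2 264 10 4 0xf19f630b69) (.tr 46 [[ce (-2) 264 10 4 0xdebe13c827]] (.half 40 48 43 [ce 0 264 6 4 0x4c18df] (ce 0 264 10 4 0xa60cf91b81) (.fin 40 48 49 [[ce 0 264 9 4 0x6da264787]] (.add 50 41 false [[ce (-4) 264 6 4 0x95715e]] (.half 40 54 44 [ce 0 264 6 4 0x5469c6] (ce 0 264 7 4 0xafb99db) (.fin 40 54 55 [[ce 0 264 6 4 0xaf2662]] (.set 57 [[ce 0 264 5 4 0xde26d]] (.set 58 [[]] (.half 40 56 43 [ce 0 264 6 4 0xf4cae0] (ce 0 264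 7 4 0xf7e90cb) (.fin 40 56 60 [[ce 0 264 6 4 0x964cc0]] (.edead 40 61 44 [false, false, true] [ce (-1) 264 5 4 0x85cb4])))))))))))))

def r0_2 : Tree := .split 30 (.split 30 (.split 30 (.root 31 0 [] (ce 0 264 12 4 0x19ac009324a9) (.dead 33 45 [[]] [] [ce 0 264 6 4 0x820001]) (.root 32 0 [] (ce 0 264 12 4 0x99a000932af1) (.root 35 0 [] (ce 0 264 11 4 0x7c9a792b00d) (.set 37 [[ce 0 264 10 4 0xae29e76979]] (.set 38 [[]] (.yrt 39 [] (ce 2 264 10 4 0x53b5eaca91) (.tr 46 [[ce (-2) 264 10 4 0xba8a1f8b77]] (.half 40 48 43 [ce 0 264 6 4 0xf90ef] (ce 0 264 10 4 0xa405f2bb39) (.fin 40 48 49 [[ce 0 264 9 4 0xc5b8486b7]] (.add 50 41 false [[ce (-4) 264 6 4 0x357672]] (.half 40 54 44 [ce 0 264 6 4 0xd723f6] (ce 0 264 7 4 0xf187d7) (.fin 40 54 55 [[ce 0 264 6 4 0xd6472]] (.set 57 [[ce 0 264 5 4 0xde375]] (.set 58 [[]] (.half 40 56 43 [ce 0 264 6 4 0xd40af8] (ce 0 264 7 4 0xe76aae7) (.fin 40 56 60 [[ce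 0 264 6 4 0xb504d0]] (.edead 40 61 44 [false, false, true] [ce (-1) 264 5 4 0x85cb4])))))))))))))) (.dead 36 45 [[]] [] [ce 0 264 6 4 0x2eb5bc])) (.dead 34 45 [[]] [] [ce 0 264 6 3 0x20801]))) (.root 31 0 [] (ce 0 264 12 4 0x49ac00032f29) (.dead 33 45 [[]] [] [ce 0 264 6 4 0x820001]) (.root 32 0 [] (ce 0 264 12 4 0xc9a000032371) (.root 35 0 [] (ce 0 264 11 4 0x4867acb44d) (.set 37 [[ce 0 264 9 4 0xbc67b3539]] (.set 38 [[]] (.yrt 39 [] (ce 2 264 10 4 0xfb9febc931) (.tr 46 [[ce (-2) 264 10 4 0x6aba128bb7]] (.half 40 48 43 [ce 0 264 6 4 0xd90ef] (ce 0 264 10 4 0xbc09f53a99) (.fin 40 48 49 [[ce 0 264 9 4 0x259068777]] (.add 50 41 false [[ce (-4) 264 6 4 0xb57a42]] (.half 40 54 44 [ce 0 264 6 4 0xd723f6] (ce 0 264 7 4 0x8e9bf87) (.fin 40 54 55 [[ce 0 264 6 4 0x8e6c72]] (.set 57 [[ce 0 264 5 4 0xde375]] (.set 58 [[]] (.half 40 56 43 [ce 0 264 6 4 0x570af8] (ce 0 264 7 4 0xa76b297) (.fin 40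 56 60 [[ce 0 264 5 4 0x68270]] (.edead 40 61 44 [false, false, true] [ce (-1) 264 5 4 0x85cb4])))))))))))))) (.dead 36 45 [[]] [] [ce 0 264 6 4 0x2eb5bc])) (.dead 34 45 [[]] [] [ce 0 264 6 3 0x20801])))) (.split 30 (.root 31 0 [] (ce 0 264 12 4 0x71ac008b2fe9) (.dead 33 45 [[]] [] [ce 0 264 6 4 0x820001]) (.root 32 0 [] (ce 0 264 12 4 0xf1a0008b2531) (.root 35 0 [] (ce 0 264 11 4 0x9078fb62d) (.set 37 [[ce 0 264 9 4 0xc07b7559]] (.set 38 [[]] (.yrt 39 [] (ce 2 264 9 4 0x8f6baa4e1) (.tr 46 [[ce (-2) 264 10 4 0xd282150897]] (.half 40 48 43 [ce 0 264 6 4 0x8e90cf] (ce 0 264 10 4 0x5037f7f869) (.fin 40 48 49 [[ce 0 264 9 4 0x75e468617]] (.add 50 41 false [[ce (-4) 264 6 4 0x75707a]] (.half 40 54 44 [ce 0 264 6 4 0xd723f6] (ce 0 264 7 4 0xf5a3ef) (.fin 40 54 55 [[ce 0 264 6 4 0xcfe872]] (.set 57 [[ce 0 264 5 4 0x5e175]] (.set 58 [[]] (.half 40 56 43 [ce 0 264 6 4 0x1582f8] (ce 0 264 7 4 0xc76aeff)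 (.fin 40 56 60 [[ce 0 264 6 4 0xf684d0]] (.edead 40 61 44 [false, false, true] [ce (-1) 264 5 4 0x85cb4])))))))))))))) (.dead 36 45 [[]] [] [ce 0 264 6 4 0x2eb5bc])) (.dead 34 45 [[]] [] [ce 0 264 6 3 0x20801]))) (.root 31 0 [] (ce 0 264 12 4 0xa1ac00fb2269) (.dead 33 45 [[]] [] [ce 0 264 6 4 0x820001]) (.root 32 0 [] (ce 0 264 12 4 0x21a000fb25b1) (.root 35 0 [] (ce 0 264 11 4 0x889c7a9b26d) (.set 37 [[ce 0 264 10 4 0xb631e5e919]] (.set 38 [[]] (.yrt 39 [] (ce 2 264 10 4 0xefa4ee4b81) (.tr 46 [[ce (-2) 264 10 4 0x82b21808d7]] (.half 40 48 43 [ce 0 264 6 4 0x8c90cf] (ce 0 264 10 4 0x683bfa7bc9) (.fin 40 48 49 [[ce 0 264 9 4 0xd5bc486d7]] (.add 50 41 false [[ce (-4) 264 6 4 0xf5744a]] (.half 40 54 44 [ce 0 264 6 4 0xd723f6] (ce 0 264 7 4 0x8ed9b9f) (.fin 40 54 55 [[ce 0 264 6 4 0x4ce072]] (.set 57 [[ce 0 264 5 4 0x5e175]] (.set 58 [[]] (.half 40 56 43 [ce 0 264 6 4 0x9482f8] (ce 0 264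 7 4 0x876b6af) (.fin 40 56 60 [[ce 0 264 5 4 0xee270]] (.edead 40 61 44 [false, false, true] [ce (-1) 264 5 4 0x85cb4])))))))))))))) (.dead 36 45 [[]] [] [ce 0 264 6 4 0x2eb5bc])) (.dead 34 45 [[]] [] [ce 0 264 6 3 0x20801]))))) (.split 30 (.split 30 (.root 31 0 [] (ce 0 264 12 4 0x95ac001f2bc9) (.dead 33 45 [[]] [] [ce 0 264 6 4 0x820001]) (.root 32 0 [] (ce 0 264 12 4 0x15a0001f2b91) (.root 35 0 [] (ce 0 264 11 4 0xee8978d311d) (.set 37 [[ce 0 264 10 4 0x3a25e52b69]] (.set 38 [[]] (.yrt 39 [] (ce 2 264 9 4 0x6b418c579) (.tr 46 [[ce (-2) 264 10 4 0xd696174bc7]] (.half 40 48 43 [ce 0 264 6 4 0xcf18ff] (ce 0 264 10 4 0xc216f15a71) (.fin 40 48 49 [[ce 0 264 9 4 0x5dde74767]] (.add 50 41 false [[ce (-4) 264 6 4 0xd57346]] (.half 40 54 44 [ce 0 264 6 4 0x95e5e6] (ce 0 264 7 4 0xeef85b3) (.fin 40 54 55 [[ce 0 264 6 4 0x6daa42]] (.set 57 [[ce 0 264 5 4 0xde07d]] (.set 58 [[]] (.half 40 56 43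 [ce 0 264 6 4 0x364ae0] (ce 0 264 7 4 0x566b4a3) (.fin 40 56 60 [[ce 0 264 6 4 0xd5c4e0]] (.edead 40 61 44 [false, false, true] [ce (-1) 264 5 4 0x85cb4])))))))))))))) (.dead 36 45 [[]] [] [ce 0 264 6 4 0x2eb5bc])) (.dead 34 45 [[]] [] [ce 0 264 6 3 0x20801]))) (.root 31 0 [] (ce 0 264 12 4 0x45ac000f2a49) (.dead 33 45 [[]] [] [ce 0 264 6 4 0x820001]) (.root 32 0 [] (ce 0 264 12 4 0xc5a0000f2811) (.root 35 0 [] (ce 0 264 11 4 0xf695787355d) (.set 37 [[ce 0 264 10 4 0xea15e42b29]] (.set 38 [[]] (.yrt 39 [] (ce 2 264 10 4 0x9dba6e8a19) (.tr 46 [[ce (-2) 264 10 4 0x686124a07]] (.half 40 48 43 [ce 0 264 6 4 0xcd18ff] (ce 0 264 10 4 0x9a3afbdad1) (.fin 40 48 49 [[ce 0 264 9 4 0xbdb674627]] (.add 50 41 false [[ce (-4) 264 5 4 0xadfb6]] (.half 40 54 44 [ce 0 264 6 4 0x14ede6] (ce 0 264 7 4 0x6e79de3) (.fin 40 54 55 [[ce 0 264 6 4 0xeea242]] (.set 57 [[ce 0 264 5 4 0xde07d]] (.set 58 [[]] (.half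 40 56 43 [ce 0 264 6 4 0xb54ae0] (ce 0 264 7 4 0x1669cd3) (.fin 40 56 60 [[ce 0 264 6 4 0x54c4e0]] (.edead 40 61 44 [false, false, true] [ce (-1) 264 5 4 0x85cb4])))))))))))))) (.dead 36 45 [[]] [] [ce 0 264 6 4 0x2eb5bc])) (.dead 34 45 [[]] [] [ce 0 264 6 3 0x20801])))) (.split 30 (.root 31 0 [] (ce 0 264 12 4 0xadac00d72109) (.dead 33 45 [[]] [] [ce 0 264 6 4 0x820001]) (.root 32 0 [] (ce 0 264 12 4 0x2da000d727d1) (.root 35 0 [] (ce 0 264 11 4 0xb28f79a373d) (.set 37 [[ce 0 264 10 4 0x123decab49]] (.set 38 [[]] (.yrt 39 [] (ce 2 264 10 4 0x9b56e0ac9) (.tr 46 [[ce (-2) 264 10 4 0xae8e18c9e7]] (.half 40 48 43 [ce 0 264 6 4 0x4e18df] (ce 0 264 10 4 0x4e08f69b21) (.fin 40 48 49 [[ce 0 264 9 4 0xdca646c7]] (.add 50 41 false [[ce (-4) 264 6 4 0x157d4e]] (.half 40 54 44 [ce 0 264 6 4 0xd561c6] (ce 0 264 7 4 0x2f3a1eb) (.fin 40 54 55 [[ce 0 264 6 4 0x2e2e62]] (.set 57 [[ce 0 264 5 4 0xde26d]]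 (.set 58 [[]] (.half 40 56 43 [ce 0 264 6 4 0x75cae0] (ce 0 264 7 4 0x36e88db) (.fin 40 56 60 [[ce 0 264 6 4 0x174cc0]] (.edead 40 61 44 [false, false, true] [ce (-1) 264 5 4 0x85cb4])))))))))))))) (.dead 36 45 [[]] [] [ce 0 264 6 4 0x2eb5bc])) (.dead 34 45 [[]] [] [ce 0 264 6 3 0x20801]))) (.root 31 0 [] (ce 0 264 12 4 0x5dac00c72789) (.dead 33 45 [[]] [] [ce 0 264 6 4 0x820001]) (.root 32 0 [] (ce 0 264 12 4 0xdda000c72c51) (.root 35 0 [] (ce 0 264 11 4 0xba9b794337d) r0_3 (.dead 36 45 [[]] [] [ce 0 264 6 4 0x2eb5bc])) (.dead 34 45 [[]] [] [ce 0 264 6 3 0x20801])))))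

def r0_0 : Tree := .set 8 [[]] (.set 9 [[]] (.set 10 [[]] (.set 11 [[]] (.set 12 [[]] (.set 13 [[]] (.set 14 [[]] (.set 15 [[]] (.set 16 [[]] (.set 17 [[]] (.set 18 [[]] (.set 19 [[]] (.set 20 [[]] (.set 21 [[]] (.set 22 [[]] (.set 23 [[]] (.set 24 [[]] (.set 25 [[]] (.set 26 [[]] (.set 27 [[]] (.set 28 [[]] (.piv [12, 13, 14] [[ce 0 264 1 0 0x0], [ce 0 264 6 4 0xd34366], [ce 0 264 6 4 0x4c7ecc]] (.piv [12, 13, 15] [[ce 0 264 1 0 0x0], [ce 0 264 6 4 0xd34366], [ce 0 264 6 4 0x947fcb]] (.piv [] [] (.disc 30 (.split 30 (.split 30 (.split 30 (.split 30 (.root 31 0 [] (ce 0 264 12 4 0x3fac002127f9) (.dead 33 45 [[]] [] [ce 0 264 6 4 0x820001]) (.root 32 0 [] (ce 0 264 12 4 0xbfa000212a01) (.root 35 0 [] (ce 0 264 11 4 0x7f8ffb07705) (.set 37 [[ce 0 264 10 3 0x3fe80901]] (.set 38 [[]] (.yrt 39 [] (ce 2 264 10 4 0xd480a1488d) (.tr 46 [[ce (-2) 264 10 4 0x80801fe8ff]] (.half 40 48 43 [ce 0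 264 6 4 0xef50f7] (ce 0 264 10 4 0x5719706a45) (.fin 40 48 49 [[ce 0 264 9 4 0x79f16975f]] (.add 50 41 false [[ce (-4) 264 6 4 0xe7f5c4]] (.half 40 54 44 [ce 0 264 6 4 0xbc407a] (ce 0 264 7 4 0xbff88f9) (.fin 40 54 55 [[ce 0 264 6 4 0xbf4242]] (.set 57 [[ce 0 264 5 4 0x3a3f5]] (.set 58 [[]] (.half 40 56 43 [ce 0 264 6 4 0x3f6268] (ce 0 264 7 4 0x53682c7) (.fin 40 56 60 [[ce 0 264 6 4 0x1fee70]] (.edead 40 61 44 [false, true, false] [ce (-1) 264 5 4 0x76635])))))))))))))) (.dead 36 45 [[]] [] [ce 0 264 6 4 0x2eb5bc])) (.dead 34 45 [[]] [] [ce 0 264 6 3 0x20801]))) (.root 31 0 [] (ce 0 264 12 4 0xafac00d12879) (.dead 33 45 [[]] [] [ce 0 264 6 4 0x820001]) (.root 32 0 [] (ce 0 264 12 4 0x2fa000d12081) (.root 35 0 [] (ce 0 264 11 4 0xc78bfba7345) (.set 37 [[ce 0 264 10 4 0x302fef08c1]] (.set 38 [[]] (.yrt 39 [] (ce 2 264 10 4 0xdc9aac4b2d) (.tr 46 [[ce (-2) 264 10 4 0x70b016e83f]] (.half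 40 48 43 [ce 0 264 6 4 0xed50f7] (ce 0 264 10 4 0x8f3d72e925) (.fin 40 48 49 [[ce 0 264 9 4 0xd9895971f]] (.add 50 41 false [[ce (-4) 264 6 4 0x67f9d4]] (.half 40 54 44 [ce 0 264 6 4 0x3d487a] (ce 0 264 7 4 0xbe780a9) (.fin 40 54 55 [[ce 0 264 6 4 0x3c4a42]] (.set 57 [[ce 0 264 5 4 0x3a3f5]] (.set 58 [[]] (.half 40 56 43 [ce 0 264 6 4 0xbc6268] (ce 0 264 7 4 0x126ba97) (.fin 40 56 60 [[ce 0 264 6 4 0x9cee70]] (.edead 40 61 44 [false, true, false] [ce (-1) 264 5 4 0x76635])))))))))))))) (.dead 36 45 [[]] [] [ce 0 264 6 4 0x2eb5bc])) (.dead 34 45 [[]] [] [ce 0 264 6 3 0x20801])))) (.split 30 (.root 31 0 [] (ce 0 264 12 4 0x37ac00392e39) (.dead 33 45 [[]] [] [ce 0 264 6 4 0x820001]) (.root 32 0 [] (ce 0 264 12 4 0xb7a000392341) (.root 35 0 [] (ce 0 264 11 4 0xe38df857125) (.set 37 [[ce 0 264 10 4 0x1837e388e1]] (.set 38 [[]] (.yrt 39 [] (ce 2 264 10 4 0xb8adacc8dd) (.tr 46 [[ce (-2) 264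 10 4 0xb8981f699f]] (.half 40 48 43 [ce 0 264 6 4 0x6e50d7] (ce 0 264 10 4 0x130b79ab35) (.fin 40 48 49 [[ce 0 264 9 4 0xa9bd5173f]] (.add 50 41 false [[ce (-4) 264 6 4 0xa7f7cc]] (.half 40 54 44 [ce 0 264 6 4 0xfecc7a] (ce 0 264 7 4 0xbf38491) (.fin 40 54 55 [[ce 0 264 6 4 0x7fce62]] (.set 57 [[ce 0 264 4 4 0x78f5]] (.set 58 [[]] (.half 40 56 43 [ce 0 264 6 4 0x7fea68] (ce 0 264 7 4 0x33e8eaf) (.fin 40 56 60 [[ce 0 264 6 4 0xde6e50]] (.edead 40 61 44 [false, true, false] [ce (-1) 264 5 4 0x76635])))))))))))))) (.dead 36 45 [[]] [] [ce 0 264 6 4 0x2eb5bc])) (.dead 34 45 [[]] [] [ce 0 264 6 3 0x20801]))) (.root 31 0 [] (ce 0 264 12 4 0xa7ac00e926b9) (.dead 33 45 [[]] [] [ce 0 264 6 4 0x820001]) (.root 32 0 [] (ce 0 264 12 4 0x27a000e921c1) (.root 35 0 [] (ce 0 264 11 4 0x2b89f8f7565) (.set 37 [[ce 0 264 10 4 0x4827ea88a1]] (.set 38 [[]] (.yrt 39 [] (ce 2 264 10 4 0x4087afcb7d) (.tr 46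 [[ce (-2) 264 10 4 0xa8881668df]] (.half 40 48 43 [ce 0 264 5 4 0xd9477] (ce 0 264 10 4 0x4b0f742a15) (.fin 40 48 49 [[ce 0 264 9 4 0x9d5416ff]] (.add 50 41 false [[ce (-4) 264 6 4 0x27fbdc]] (.half 40 54 44 [ce 0 264 6 4 0x7fc47a] (ce 0 264 7 4 0xbfbbcc1) (.fin 40 54 55 [[ce 0 264 6 4 0xfcc662]] (.set 57 [[ce 0 264 4 4 0x78f5]] (.set 58 [[]] (.half 40 56 43 [ce 0 264 6 4 0xfcea68] (ce 0 264 7 4 0xf2e86ff) (.fin 40 56 60 [[ce 0 264 6 4 0x5f6e50]] (.edead 40 61 44 [false, true, false] [ce (-1) 264 5 4 0x76635])))))))))))))) (.dead 36 45 [[]] [] [ce 0 264 6 4 0x2eb5bc])) (.dead 34 45 [[]] [] [ce 0 264 6 3 0x20801]))))) (.split 30 (.split 30 (.root 31 0 [] (ce 0 264 12 4 0xbac00bd2c99) (.dead 33 45 [[]] [] [ce 0 264 6 4 0x820001]) (.root 32 0 [] (ce 0 264 12 4 0x8ba000bd2221) (.root 35 0 [] (ce 0 264 11 4 0x6182fb6f615) (.set 37 [[ce 0 264 10 4 0xec0be3c8f1]] (.set 38 [[]] (.yrt 39 [] (ce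 2 264 10 4 0x8eb72288f5) (.tr 46 [[ce (-2) 264 10 4 0x2cbc14a90f]] (.half 40 48 43 [ce 0 264 6 4 0xacd8c7] (ce 0 264 10 4 0xfd3a7108dd) (.fin 40 48 49 [[ce 0 264 9 4 0xd1e7497cf]] (.add 50 41 false [[ce (-4) 264 6 4 0xc5f6d8]] (.half 40 54 44 [ce 0 264 6 4 0x5d0e42] (ce 0 264 7 4 0x7e586e5) (.fin 40 54 55 [[ce 0 264 6 4 0x9f8c72]] (.set 57 [[ce 0 264 5 4 0xbe2fd]] (.set 58 [[]] (.half 40 56 43 [ce 0 264 6 4 0x9e2270] (ce 0 264 7 4 0x3e98bb) (.fin 40 56 60 [[ce 0 264 6 4 0xff2a40]] (.edead 40 61 44 [false, true, false] [ce (-1) 264 5 4 0x76635])))))))))))))) (.dead 36 45 [[]] [] [ce 0 264 6 4 0x2eb5bc])) (.dead 34 45 [[]] [] [ce 0 264 6 3 0x20801]))) (.root 31 0 [] (ce 0 264 12 4 0xfbac00ed2119) (.dead 33 45 [[]] [] [ce 0 264 6 4 0x820001]) (.root 32 0 [] (ce 0 264 12 4 0x7ba000ed2ca1) (.root 35 0 [] (ce 0 264 11 4 0x299efa0f255) (.set 37 [[ce 0 264 10 4 0x1c3beac8b1]] (.set 38 [[]] (.yrt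 39 [] (ce 2 264 10 4 0x56b1298995) (.tr 46 [[ce (-2) 264 10 4 0x9cac13aa4f]] (.half 40 48 43 [ce 0 264 6 4 0xaed8c7] (ce 0 264 10 4 0x753e7b8abd) (.fin 40 48 49 [[ce 0 264 9 4 0x31ff5978f]] (.add 50 41 false [[ce (-4) 264 6 4 0x45fae8]] (.half 40 54 44 [ce 0 264 6 4 0xde0642] (ce 0 264 7 4 0x7edbe95) (.fin 40 54 55 [[ce 0 264 6 4 0x1c8472]] (.set 57 [[ce 0 264 5 4 0xbe2fd]] (.set 58 [[]] (.half 40 56 43 [ce 0 264 6 4 0x1f2270] (ce 0 264 7 4 0xc2e908b) (.fin 40 56 60 [[ce 0 264 6 4 0x7c2a40]] (.edead 40 61 44 [false, true, false] [ce (-1) 264 5 4 0x76635])))))))))))))) (.dead 36 45 [[]] [] [ce 0 264 6 4 0x2eb5bc])) (.dead 34 45 [[]] [] [ce 0 264 6 3 0x20801])))) r0_1)) r0_2)))))))))))))))))))))))))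

theorem r0 : run FDP15.ds FDP15.es [[]] vs.length (fullH 7 vs (M 2 3) A) r0_0 = true := by
  decide +kernel

end Pool.Agent.Lib.MP_ab8df0_nt.T.B8b2

/-! The result of the computation. -/

set_option maxRecDepth 100000

namespace Pool.Agent.Lib.MP_ab8df0_nt.T.B8b2

open Pool.Agent.Lib.MP_ab8df0_nt.B Pool.Agent.Lib.MP_ab8df0_nt.P

theorem rph {K : Type} [Field K] [NumberField K] {a : K} {pl : List (Place K)} {ph : List (K →+* ℝ)}
    {w : List (IsDedekindDomain.HeightOneSpectrum (NumberField.RingOfIntegers K))}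
    (hP : Pack K FDP15 a pl ph w) : cval a vs 24 = (1 + (((-3) * a) + (a * ((a) ^ 2)))) := by
  have h : (cval a vs 24 + (-((((1 : ℤ) : K) + ((((-3 : ℤ) : K) * cval a vs 0) + (cval a vs 0 * ((cval a vs 0) ^ 2))))))) = 0 :=
    hP.rel vs (.add (.var 24) (.neg (.add (.num 1) (.add (.mul (.num (-3)) (.var 0)) (.mul (.var 0) (.sq (.var 0))))))) (by decide +kernel)
  have h0 : cval a vs 0 = a := by simp [cval, vs, ev]
  try rw [h0] at h
  try push_cast at h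
  linear_combination h

theorem rk {K : Type} [Field K] [NumberField K] {a : K} {pl : List (Place K)} {ph : List (K →+* ℝ)}
    {w : List (IsDedekindDomain.HeightOneSpectrum (NumberField.RingOfIntegers K))}
    (hP : Pack K FDP15 a pl ph w) : cval a vs 19 = (3 + ((8 * a) + (((-2) * ((a) ^ 2)) + ((-2) * (a * ((a) ^ 2)))))) := by
  have h : (cval a vs 19 + (-((((3 : ℤ) : K) + ((((8 : ℤ) : K) * cval a vs 0) + ((((-2 : ℤ) : K) * ((cval a vs 0) ^ 2)) + (((-2 : ℤ) : K) * (cval a vs 0 * ((cval a vs 0) ^ 2))))))))) = 0 :=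
    hP.rel vs (.add (.var 19) (.neg (.add (.num 3) (.add (.mul (.num 8) (.var 0)) (.add (.mul (.num (-2)) (.sq (.var 0))) (.mul (.num (-2)) (.mul (.var 0) (.sq (.var 0))))))))) (by decide +kernel)
  have h0 : cval a vs 0 = a := by simp [cval, vs, ev]
  try rw [h0] at h
  try push_cast at h
  linear_combination h

theorem rc1 {K : Type} [Field K] [NumberField K] {a : K} {pl : List (Place K)} {ph : List (K →+* ℝ)}
    {w : List (IsDedekindDomain.HeightOneSpectrum (NumberField.RingOfIntegers K))}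
    (hP : Pack K FDP15 a pl ph w) : cval a vs 16 = (9 + (12 * cval a vs 24)) := by
  have h : (cval a vs 16 + (-((((9 : ℤ) : K) + (((12 : ℤ) : K) * cval a vs 24))))) = 0 :=
    hP.rel vs (.add (.var 16) (.neg (.add (.num 9) (.mul (.num 12) (.var 24))))) (by decide +kernel)
  have h0 : cval a vs 0 = a := by simp [cval, vs, ev]
  try rw [h0] at h
  try push_cast at h
  linear_combination h

theorem rc2 {K : Type} [Field K] [NumberField K] {a : K} {pl : List (Place K)} {ph : List (K →+* ℝ)}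
    {w : List (IsDedekindDomain.HeightOneSpectrum (NumberField.RingOfIntegers K))}
    (hP : Pack K FDP15 a pl ph w) : cval a vs 17 = (21 - (12 * cval a vs 24)) := by
  have h : (cval a vs 17 + (-((((21 : ℤ) : K) + (-((((12 : ℤ) : K) * cval a vs 24))))))) = 0 :=
    hP.rel vs (.add (.var 17) (.neg (.add (.num 21) (.neg (.mul (.num 12) (.var 24)))))) (by decide +kernel)
  have h0 : cval a vs 0 = a := by simp [cval, vs, ev]
  try rw [h0] at h
  try push_cast at h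
  linear_combination h

theorem rk1 {K : Type} [Field K] [NumberField K] {a : K} {pl : List (Place K)} {ph : List (K →+* ℝ)}
    {w : List (IsDedekindDomain.HeightOneSpectrum (NumberField.RingOfIntegers K))}
    (hP : Pack K FDP15 a pl ph w) : cval a vs 18 = (((2 * cval a vs 24) + 1) * cval a vs 19) := by
  have h : (cval a vs 18 + (-((((((2 : ℤ) : K) * cval a vs 24) + ((1 : ℤ) : K)) * cval a vs 19)))) = 0 :=
    hP.rel vs (.add (.var 18) (.neg (.mul (.add (.mul (.num 2) (.var 24)) (.num 1)) (.var 19)))) (by decide +kernel)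
  have h0 : cval a vs 0 = a := by simp [cval, vs, ev]
  try rw [h0] at h
  try push_cast at h
  linear_combination h

theorem rs5 {K : Type} [Field K] [NumberField K] {a : K} {pl : List (Place K)} {ph : List (K →+* ℝ)}
    {w : List (IsDedekindDomain.HeightOneSpectrum (NumberField.RingOfIntegers K))}
    (hP : Pack K FDP15 a pl ph w) : cval a vs 20 = ((2 * cval a vs 24) - 1) := by
  have h : (cval a vs 20 + (-(((((2 : ℤ) : K) * cval a vs 24) + (-(((1 : ℤ) : K))))))) = 0 :=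
    hP.rel vs (.add (.var 20) (.neg (.add (.mul (.num 2) (.var 24)) (.neg (.num 1))))) (by decide +kernel)
  have h0 : cval a vs 0 = a := by simp [cval, vs, ev]
  try rw [h0] at h
  try push_cast at h
  linear_combination h

theorem rk12 {K : Type} [Field K] [NumberField K] {a : K} {pl : List (Place K)} {ph : List (K →+* ℝ)}
    {w : List (IsDedekindDomain.HeightOneSpectrum (NumberField.RingOfIntegers K))}
    (hP : Pack K FDP15 a pl ph w) : cval a vs 23 = (cval a vs 18 * cval a vs 19) := by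
  have h : (cval a vs 23 + (-((cval a vs 18 * cval a vs 19)))) = 0 :=
    hP.rel vs (.add (.var 23) (.neg (.mul (.var 18) (.var 19)))) (by decide +kernel)
  have h0 : cval a vs 0 = a := by simp [cval, vs, ev]
  try rw [h0] at h
  try push_cast at h
  linear_combination h

theorem ra {K : Type} [Field K] [NumberField K] {a : K} {pl : List (Place K)} {ph : List (K →+* ℝ)}
    {w : List (IsDedekindDomain.HeightOneSpectrum (NumberField.RingOfIntegers K))}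
    (hP : Pack K FDP15 a pl ph w) : cval a vs 8 = (4 * (cval a vs 24 * cval a vs 21)) := by
  have h : (cval a vs 8 + (-((((4 : ℤ) : K) * (cval a vs 24 * cval a vs 21))))) = 0 :=
    hP.rel vs (.add (.var 8) (.neg (.mul (.num 4) (.mul (.var 24) (.var 21))))) (by decide +kernel)
  have h0 : cval a vs 0 = a := by simp [cval, vs, ev]
  try rw [h0] at h
  try push_cast at h
  linear_combination h

theorem rb {K : Type} [Field K] [NumberField K] {a : K} {pl : List (Place K)} {ph : List (K →+* ℝ)}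
    {w : List (IsDedekindDomain.HeightOneSpectrum (NumberField.RingOfIntegers K))}
    (hP : Pack K FDP15 a pl ph w) : cval a vs 9 = (-((4 * (cval a vs 24 * ((cval a vs 21) ^ 2))))) := by
  have h : (cval a vs 9 + (-((-((((4 : ℤ) : K) * (cval a vs 24 * ((cval a vs 21) ^ 2)))))))) = 0 :=
    hP.rel vs (.add (.var 9) (.neg (.neg (.mul (.num 4) (.mul (.var 24) (.sq (.var 21))))))) (by decide +kernel)
  have h0 : cval a vs 0 = a := by simp [cval, vs, ev]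
  try rw [h0] at h
  try push_cast at h
  linear_combination h

theorem rmu {K : Type} [Field K] [NumberField K] {a : K} {pl : List (Place K)} {ph : List (K →+* ℝ)}
    {w : List (IsDedekindDomain.HeightOneSpectrum (NumberField.RingOfIntegers K))}
    (hP : Pack K FDP15 a pl ph w) : cval a vs 22 = (-((cval a vs 24 * cval a vs 21))) := by
  have h : (cval a vs 22 + (-((-((cval a vs 24 * cval a vs 21)))))) = 0 :=
    hP.rel vs (.add (.var 22) (.neg (.neg (.mul (.var 24) (.var 21))))) (by decide +kernel)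
  have h0 : cval a vs 0 = a := by simp [cval, vs, ev]
  try rw [h0] at h
  try push_cast at h
  linear_combination h

theorem rdl {K : Type} [Field K] [NumberField K] {a : K} {pl : List (Place K)} {ph : List (K →+* ℝ)}
    {w : List (IsDedekindDomain.HeightOneSpectrum (NumberField.RingOfIntegers K))}
    (hP : Pack K FDP15 a pl ph w) : cval a vs 21 = (((a) ^ 2) - 2) := by
  have h : (cval a vs 21 + (-((((cval a vs 0) ^ 2) + (-(((2 : ℤ) : K))))))) = 0 :=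
    hP.rel vs (.add (.var 21) (.neg (.add (.sq (.var 0)) (.neg (.num 2))))) (by decide +kernel)
  have h0 : cval a vs 0 = a := by simp [cval, vs, ev]
  try rw [h0] at h
  try push_cast at h
  linear_combination h

theorem core {K : Type} [Field K] [NumberField K] {a : K} {pl : List (Place K)} {ph : List (K →+* ℝ)}
    {w : List (IsDedekindDomain.HeightOneSpectrum (NumberField.RingOfIntegers K))}
    (hP : Pack K FDP15 a pl ph w) {G : Prop} (t p q B u x y : K)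
    (hdisc : Q2 3 (t - ((2 : ℤ) : K)))
    (hrp : p ^ 2 = (1 + (cval a vs 16 * ((t) ^ 2))))
    (hrq : q ^ 2 = (1 + (cval a vs 17 * ((t) ^ 2))))
    (hcp : IsSquare (cval a vs 20 * (p + (cval a vs 18 * t))))
    (hcq : IsSquare (-((cval a vs 20 * (q + (cval a vs 19 * t))))))
    (hrB : B ^ 2 = (-(((p * q) + ((t * ((cval a vs 18 * q) + (cval a vs 19 * p))) + (cval a vs 23 * ((t) ^ 2)))))))
    (hcB : IsSquare (B * cval a vs 21))
    (hu : u = ((((B + 1)) ^ 2) * (B)⁻¹))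
    (hx : x = (cval a vs 22 * u))
    (hon : On (cval a vs 8) (cval a vs 9) x y) :
    G := by
  refine hP.cover (fr := [t, p, q, B, u, x, y]) (M := M) (cs := [[]]) rfl auto
    (l := [(2, 3)]) (by decide) ?_ hdisc fun tt kk hq => ?_
  · exact List.forall_mem_cons.2 ⟨⟨_, r0⟩, fun _ h => absurd h List.not_mem_nil⟩
  · refine List.forall_mem_cons.2 ⟨?_, List.forall_mem_cons.2 ⟨?_, List.forall_mem_cons.2 ⟨?_, List.forall_mem_cons.2 ⟨?_, List.forall_mem_cons.2 ⟨?_, List.forall_mem_cons.2 ⟨?_, List.forall_mem_cons.2 ⟨?_, List.forall_mem_cons.2 ⟨?_, List.forall_mem_cons.2 ⟨?_, List.forall_mem_cons.2 ⟨?_, List.forall_mem_cons.2 ⟨?_, fun _ h => absurd h List.not_mem_nil⟩⟩⟩⟩⟩⟩⟩⟩⟩⟩⟩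
    · exact hq
    · exact hq
    · show p ^ 2 = (((1 : ℤ) : K) + (cval a vs 16 * ((t) ^ 2)))
      try push_cast
      linear_combination hrp
    · show q ^ 2 = (((1 : ℤ) : K) + (cval a vs 17 * ((t) ^ 2)))
      try push_cast
      linear_combination hrq
    · exact span_of_isSquare (x := (cval a vs 20 * (p + (cval a vs 18 * t)))) ((by push_cast; ring : (cval a vs 20 * (p + (cval a vs 18 * t))) = (cval a vs 20 * (p + (cval a vs 18 * t)))) ▸ hcp)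
    · exact span_of_isSquare (x := (-((cval a vs 20 * (q + (cval a vs 19 * t)))))) ((by push_cast; ring : (-((cval a vs 20 * (q + (cval a vs 19 * t))))) = (-((cval a vs 20 * (q + (cval a vs 19 * t)))))) ▸ hcq)
    · show B ^ 2 = (-(((p * q) + ((t * ((cval a vs 18 * q) + (cval a vs 19 * p))) + (cval a vs 23 * ((t) ^ 2))))))
      try push_cast
      linear_combination hrB
    · exact span_of_isSquare (x := (B * cval a vs 21)) ((by push_cast; ring : (B * cval a vs 21) = (B * cval a vs 21)) ▸ hcB)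
    · show u = ((((B + ((1 : ℤ) : K))) ^ 2) * (B)⁻¹)
      try push_cast
      linear_combination hu
    · show x = (cval a vs 22 * u)
      try push_cast
      linear_combination hx
    · exact hon

end Pool.Agent.Lib.MP_ab8df0_nt.T.B8b2

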