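import Pool.Agent.Lib.MP_ab8df0_nt.B.Auto2
import Pool.Agent.Lib.MP_ab8df0_nt.P.P15D

/-! Constants and hypotheses. -/

set_option maxRecDepth 100000

namespace Pool.Agent.Lib.MP_ab8df0_nt.T.B8b3

open Pool.Agent.Lib.MP_ab8df0_nt.B Pool.Agent.Lib.MP_ab8df0_nt.P

def vs : Cs := [([0, 1], 1), ([], 1), ([], 1), ([], 1), ([], 1), ([], 1), ([], 1), ([], 1), ([], 1), ([], 1), ([], 1), ([], 1), ([], 1), 
  ([-4, -4, 0, 4], 1),
  ([-4, -4, 32, -20], 1),
  ([8, 8, 0, -8], 1),
  ([-16, -160, 0, 96], 1),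
  ([2], 1),
  ([0, -1, 1], 1),
  ([-2, 2, 1, -1], 1),
  ([0, -2, 0, 1], 1),
  ([21, -36, 0, 12], 1),
  ([9, 36, 0, -12], 1),
  ([5, -2, -2], 1),
  ([3, 8, -2, -2], 1),
  ([1, -6, 0, 2], 1),
  ([-1, -2, 2], 1),
  ([1, 1, 0, -1], 1),
  ([3, -18, 0, 6], 1),
  ([1, -3, 0, 1], 1),
  ([0, 4, 8, -8], 1),
  ([-16, -56, 88, -28], 1),
  ([7, -18, 0, 6], 1),
  ([1, 18, 0, -6], 1),
  ([-5, -14, 2, 4], 1),
  ([17, -22, -4, 6], 1),
  ([4, -12, -4, 8], 1),
  ([24, 0, 8, -16], 1),
  ([0, -12, 4, 4], 1),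
  ([-16, -24, 16, 8], 1)]

def c0 : EC := ⟨13, 14, 15, 16, [17, 18, 19], [17, 18, 20]⟩

def M (t0 : ℤ) (k0 : ℕ) : List Hyp := [
  .disc 1 t0 k0,
  .disc 1 t0 k0,
  .sqr 2 (.add (.num 1) (.mul (.var 21) (.sq (.var 1)))),
  .sqr 3 (.add (.num 1) (.mul (.var 22) (.sq (.var 1)))),
  .cls (.mul (.var 25) (.add (.var 2) (.mul (.var 23) (.var 1)))) [],
  .cls (.neg (.mul (.var 25) (.add (.var 3) (.mul (.var 24) (.var 1))))) [],
  .sqr 4 (.neg (.add (.mul (.var 2) (.var 3)) (.add (.mul (.var 1) (.add (.mul (.var 23) (.var 3)) (.mul (.var 24) (.var 2)))) (.mul (.var 28) (.sq (.var 1)))))),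
  .cls (.mul (.var 4) (.var 26)) [],
  .eq 5 (.mul (.sq (.add (.var 4) (.num 1))) (.inv (.var 4))),
  .eq 6 (.mul (.var 27) (.var 5)),
  .on c0 false 6 7,
  .lin 8 (.add (.var 2) (.var 32)) (.mul (.var 21) (.add (.var 1) (.num 2))),
  .lin 9 (.add (.var 3) (.var 33)) (.mul (.var 22) (.add (.var 1) (.num 2))),
  .lin 10 (.add (.var 4) (.var 34)) (.neg (.add (.mul (.add (.var 8) (.var 23)) (.add (.var 3) (.mul (.var 24) (.var 1)))) (.mul (.var 35) (.add (.var 9) (.var 24))))),
  .eq 11 (.mul (.var 10) (.add (.num 1) (.neg (.mul (.inv (.var 4)) (.var 26))))),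
  .eq 12 (.mul (.var 27) (.var 11)),
  .dq 6 30 1 2 1 12]

def k0 : Cut := ⟨[0, 2], [], [[true, false, false, false, false], [true, true, false, false, false]], [[false, false, true, false, false], [false, true, false, true, false], [true, false, false, true, true]], [[true, false, false, false, false], [true, true, false, false, false], [false, false, true, false, false], [true, true, false, true, false], [false, true, false, true, true]]⟩

def k1 : Cut := ⟨[1, 3], [], [[true, false, false, false, false], [true, true, false, false, false]], [[false, false, true, false, false], [false, true, false, true, false], [false, true, false, false, true]], [[true, false, false, false, false], [true, true, false, false, false], [false, false, true, false, false], [true, true, false, true, false], [true, true, false, false, true]]⟩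

def A : List AH := [
  .ec c0 4 ([52, 259, -24, -73], 4) ([-141, -674, 64, 190], 16) k0 k1,
  .on c0 false 30 31,
  .on c0 false 30 31,
  .on c0 true 36 37,
  .on c0 true 38 39]

theorem auto : (baseOk 12 vs && A.all (AH.ok FDP15 12 vs)) = true := by decide +kernel

end Pool.Agent.Lib.MP_ab8df0_nt.T.B8b3

/-! Proof trees. -/

set_option maxRecDepth 100000

namespace Pool.Agent.Lib.MP_ab8df0_nt.T.B8b3

open Pool.Agent.Lib.MP_ab8df0_nt.B Pool.Agent.Lib.MP_ab8df0_nt.P

def r0_0 : Tree := .set 13 [[]] (.set 14 [[]] (.set 15 [[]] (.set 16 [[]] (.set 17 [[]] (.set 18 [[]] (.set 19 [[]] (.set 20 [[]] (.set 21 [[]] (.set 22 [[]] (.set 23 [[]] (.set 24 [[]] (.set 25 [[]] (.set 26 [[]] (.set 27 [[]] (.set 28 [[]] (.set 29 [[]] (.set 30 [[]] (.set 31 [[]] (.set 32 [[]] (.set 33 [[]] (.set 34 [[]] (.set 35 [[]] (.set 36 [[]] (.set 37 [[]] (.set 38 [[]] (.set 39 [[]] (.piv [17, 18, 19] [[ce 0 264 1 0 0x0], [ce 0 264 6 4 0xd34366], [ce 0 264 6 4 0x4c7ecc]] (.piv [17, 18,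 20] [[ce 0 264 1 0 0x0], [ce 0 264 6 4 0xd34366], [ce 0 264 6 4 0x947fcb]] (.piv [] [] (.disc 41 (.split 41 (.root 42 0 [] (ce 0 264 9 4 0xfd00025f9) (.dead 44 64 [[]] [] [ce 0 264 6 4 0x820001]) (.root 43 0 [] (ce 0 264 9 4 0xfd0002401) (.root 46 0 [] (ce 0 264 8 4 0x7cde0ee5) (.dead 47 64 [[]] [] [ce 0 264 1 1 0x1]) (.set 48 [[ce 0 264 7 3 0x18bf5f]] (.set 49 [[]] (.yrt 50 [] (ce 2 264 7 4 0xd31b10c) (.set 51 [[ce (-1) 264 7 4 0x7c0234b]] (.set 52 [[ce (-1) 264 7 4 0x8401d0d]] (.set 53 [[ce (-1) 264 6 3 0x32faf]] (.set 54 [[ce 0 264 7 3 0x18bf5f]] (.set 55 [[]] (.dent 65 58 56 false [[ce (-3) 264 5 3 0x5a23]] [[ce 0 264 1 1 0x1]] [[ce 0 264 1 1 0x1]] (.deep 57 62 63 67 68 40 3 [5] [] [] (.pnil 70) (.pnil 70) (.set 69 [[]] (.set 70 [[]] (.set 71 [[]] (.set 72 [[ce (-4) 264 6 4 0x66bfff]] (.set 73 [[ce (-2) 264 5 4 0x9f948]] (.half 57 74 62 [ce 2 264 6 4 0x20607f] (ce (-2) 264 6 4 0xd72198) (.fin 57 74 75 [[ce 2 264 5 4 0x4183f]] (.set 77 [[ce 2 264 4 3 0x961]]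 (.set 78 [[]] (.half 57 76 63 [ce 1 264 6 4 0xe06e57] (ce (-1) 264 6 4 0x772db8) (.fin 57 76 80 [[ce 1 264 5 4 0xc1b37]] (.set 82 [[ce 2 264 4 3 0x961]] (.set 83 [[]] (.half 57 81 62 [ce 1 264 6 4 0x82e847] (ce (-1) 264 6 4 0x97a588) (.fin 57 81 85 [[ce 1 264 4 3 0xe17]] (.set 87 [[ce 0 264 4 4 0x81e1]] (.set 88 [[]] (.half 57 86 63 [ce 0 264 6 4 0xf32c53] (ce 0 264 6 4 0x166998) (.fin 57 86 90 [[ce 0 264 5 4 0xe4a33]] (.set 92 [[ce 0 264 3 4 0x975]] (.set 93 [[]] (.edead 57 91 62 [false, false, false] [ce 0 264 6 4 0x8ae8ef]))))))))))))))))))))))))))))))))) (.dead 45 64 [[]] [] [ce 0 264 6 3 0x20801]))) (.root 42 0 [] (ce 0 264 9 4 0xcd00264a9) (.dead 44 64 [[]] [] [ce 0 264 6 4 0x820001]) (.root 43 0 [] (ce 0 264 9 4 0xcd00264f1) (.root 46 0 [] (ce 0 264 8 4 0x647e56ed) (.dead 47 64 [[]] [] [ce 0 264 1 1 0x1]) (.set 48 [[ce 0 264 7 4 0x9109367]] (.set 49 [[]] (.yrt 50 [] (ce 2 264 7 4 0x332912c) (.set 51 [[ce (-1) 264 7 4 0x9c00b03]] (.set 52 [[ce (-1) 264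 7 4 0x6403535]] (.set 53 [[ce (-1) 264 5 4 0xa0853]] (.set 54 [[ce 0 264 7 4 0x9109367]] (.set 55 [[]] (.dent 65 58 56 false [[ce (-3) 264 5 4 0xb13b5]] [[ce 0 264 11 4 0x68010240501]] [[ce 0 264 9 4 0x805028001]] (.deep 57 62 63 67 68 40 3 [5] [] [] (.pnil 70) (.pnil 70) (.set 69 [[]] (.set 70 [[]] (.set 71 [[]] (.set 72 [[ce (-4) 264 6 4 0xe630f7]] (.set 73 [[ce (-2) 264 5 4 0x8f1c0]] (.half 57 74 62 [ce 2 264 6 4 0x7ace7d] (ce (-2) 264 6 4 0x9ec680) (.fin 57 74 75 [[ce 2 264 5 4 0x150e3]] (.set 77 [[ce 2 264 4 3 0x1e9]] (.set 78 [[]] (.half 57 76 63 [ce 1 264 6 4 0x3b4a7d] (ce (-1) 264 6 4 0x7e48a0) (.fin 57 76 80 [[ce 1 264 5 4 0x932e3]] (.set 82 [[ce 2 264 4 3 0x1e9]] (.set 83 [[]] (.half 57 81 62 [ce 1 264 6 4 0x184675] (ce (-1) 264 6 4 0x5f4290) (.fin 57 81 85 [[ce 1 264 5 4 0xd70eb]] (.set 87 [[ce 0 264 4 4 0x8969]] (.set 88 [[]] (.half 57 86 63 [ce 0 264 6 4 0x6a0279] (ce 0 264 6 4 0x9c0eb0) (.fin 57 86 90 [[ce 0 264 5 4 0x302e7]] (.set 92 [[ce 0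 264 4 4 0x456d]] (.set 93 [[]] (.edead 57 91 62 [false, false, false] [ce 0 264 6 4 0x88e0cf]))))))))))))))))))))))))))))))))) (.dead 45 64 [[]] [] [ce 0 264 6 3 0x20801]))))))))))))))))))))))))))))))))))

theorem r0 : run FDP15.ds FDP15.es [[]] vs.length (fullH 12 vs (M 2 3) A) r0_0 = true := by
  decide +kernel

end Pool.Agent.Lib.MP_ab8df0_nt.T.B8b3

/-! The result of the computation. -/

set_option maxRecDepth 100000

namespace Pool.Agent.Lib.MP_ab8df0_nt.T.B8b3

open Pool.Agent.Lib.MP_ab8df0_nt.B Pool.Agent.Lib.MP_ab8df0_nt.P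

theorem rph {K : Type} [Field K] [NumberField K] {a : K} {pl : List (Place K)} {ph : List (K →+* ℝ)}
    {w : List (IsDedekindDomain.HeightOneSpectrum (NumberField.RingOfIntegers K))}
    (hP : Pack K FDP15 a pl ph w) : cval a vs 29 = (1 + (((-3) * a) + (a * ((a) ^ 2)))) := by
  have h : (cval a vs 29 + (-((((1 : ℤ) : K) + ((((-3 : ℤ) : K) * cval a vs 0) + (cval a vs 0 * ((cval a vs 0) ^ 2))))))) = 0 :=
    hP.rel vs (.add (.var 29) (.neg (.add (.num 1) (.add (.mul (.num (-3)) (.var 0)) (.mul (.var 0) (.sq (.var 0))))))) (by decide +kernel)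
  have h0 : cval a vs 0 = a := by simp [cval, vs, ev]
  try rw [h0] at h
  try push_cast at h
  linear_combination h

theorem rk {K : Type} [Field K] [NumberField K] {a : K} {pl : List (Place K)} {ph : List (K →+* ℝ)}
    {w : List (IsDedekindDomain.HeightOneSpectrum (NumberField.RingOfIntegers K))}
    (hP : Pack K FDP15 a pl ph w) : cval a vs 24 = (3 + ((8 * a) + (((-2) * ((a) ^ 2)) + ((-2) * (a * ((a) ^ 2)))))) := by
  have h : (cval a vs 24 + (-((((3 : ℤ) : K) + ((((8 : ℤ) : K) * cval a vs 0) + ((((-2 : ℤ) : K) * ((cval a vs 0) ^ 2)) + (((-2 : ℤ) : K) * (cval a vs 0 * ((cval a vs 0) ^ 2))))))))) = 0 :=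
    hP.rel vs (.add (.var 24) (.neg (.add (.num 3) (.add (.mul (.num 8) (.var 0)) (.add (.mul (.num (-2)) (.sq (.var 0))) (.mul (.num (-2)) (.mul (.var 0) (.sq (.var 0))))))))) (by decide +kernel)
  have h0 : cval a vs 0 = a := by simp [cval, vs, ev]
  try rw [h0] at h
  try push_cast at h
  linear_combination h

theorem rc1 {K : Type} [Field K] [NumberField K] {a : K} {pl : List (Place K)} {ph : List (K →+* ℝ)}
    {w : List (IsDedekindDomain.HeightOneSpectrum (NumberField.RingOfIntegers K))}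
    (hP : Pack K FDP15 a pl ph w) : cval a vs 21 = (9 + (12 * cval a vs 29)) := by
  have h : (cval a vs 21 + (-((((9 : ℤ) : K) + (((12 : ℤ) : K) * cval a vs 29))))) = 0 :=
    hP.rel vs (.add (.var 21) (.neg (.add (.num 9) (.mul (.num 12) (.var 29))))) (by decide +kernel)
  have h0 : cval a vs 0 = a := by simp [cval, vs, ev]
  try rw [h0] at h
  try push_cast at h
  linear_combination h

theorem rc2 {K : Type} [Field K] [NumberField K] {a : K} {pl : List (Place K)} {ph : List (K →+* ℝ)}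
    {w : List (IsDedekindDomain.HeightOneSpectrum (NumberField.RingOfIntegers K))}
    (hP : Pack K FDP15 a pl ph w) : cval a vs 22 = (21 - (12 * cval a vs 29)) := by
  have h : (cval a vs 22 + (-((((21 : ℤ) : K) + (-((((12 : ℤ) : K) * cval a vs 29))))))) = 0 :=
    hP.rel vs (.add (.var 22) (.neg (.add (.num 21) (.neg (.mul (.num 12) (.var 29)))))) (by decide +kernel)
  have h0 : cval a vs 0 = a := by simp [cval, vs, ev]
  try rw [h0] at h
  try push_cast at h
  linear_combination h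

theorem rk1 {K : Type} [Field K] [NumberField K] {a : K} {pl : List (Place K)} {ph : List (K →+* ℝ)}
    {w : List (IsDedekindDomain.HeightOneSpectrum (NumberField.RingOfIntegers K))}
    (hP : Pack K FDP15 a pl ph w) : cval a vs 23 = (((2 * cval a vs 29) + 1) * cval a vs 24) := by
  have h : (cval a vs 23 + (-((((((2 : ℤ) : K) * cval a vs 29) + ((1 : ℤ) : K)) * cval a vs 24)))) = 0 :=
    hP.rel vs (.add (.var 23) (.neg (.mul (.add (.mul (.num 2) (.var 29)) (.num 1)) (.var 24)))) (by decide +kernel)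
  have h0 : cval a vs 0 = a := by simp [cval, vs, ev]
  try rw [h0] at h
  try push_cast at h
  linear_combination h

theorem rs5 {K : Type} [Field K] [NumberField K] {a : K} {pl : List (Place K)} {ph : List (K →+* ℝ)}
    {w : List (IsDedekindDomain.HeightOneSpectrum (NumberField.RingOfIntegers K))}
    (hP : Pack K FDP15 a pl ph w) : cval a vs 25 = ((2 * cval a vs 29) - 1) := by
  have h : (cval a vs 25 + (-(((((2 : ℤ) : K) * cval a vs 29) + (-(((1 : ℤ) : K))))))) = 0 :=
    hP.rel vs (.add (.var 25) (.neg (.add (.mul (.num 2) (.var 29)) (.neg (.num 1))))) (by decide +kernel)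
  have h0 : cval a vs 0 = a := by simp [cval, vs, ev]
  try rw [h0] at h
  try push_cast at h
  linear_combination h

theorem rk12 {K : Type} [Field K] [NumberField K] {a : K} {pl : List (Place K)} {ph : List (K →+* ℝ)}
    {w : List (IsDedekindDomain.HeightOneSpectrum (NumberField.RingOfIntegers K))}
    (hP : Pack K FDP15 a pl ph w) : cval a vs 28 = (cval a vs 23 * cval a vs 24) := by
  have h : (cval a vs 28 + (-((cval a vs 23 * cval a vs 24)))) = 0 :=
    hP.rel vs (.add (.var 28) (.neg (.mul (.var 23) (.var 24)))) (by decide +kernel)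
  have h0 : cval a vs 0 = a := by simp [cval, vs, ev]
  try rw [h0] at h
  try push_cast at h
  linear_combination h

theorem ra {K : Type} [Field K] [NumberField K] {a : K} {pl : List (Place K)} {ph : List (K →+* ℝ)}
    {w : List (IsDedekindDomain.HeightOneSpectrum (NumberField.RingOfIntegers K))}
    (hP : Pack K FDP15 a pl ph w) : cval a vs 13 = (4 * (cval a vs 29 * cval a vs 26)) := by
  have h : (cval a vs 13 + (-((((4 : ℤ) : K) * (cval a vs 29 * cval a vs 26))))) = 0 :=
    hP.rel vs (.add (.var 13) (.neg (.mul (.num 4) (.mul (.var 29) (.var 26))))) (by decide +kernel)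
  have h0 : cval a vs 0 = a := by simp [cval, vs, ev]
  try rw [h0] at h
  try push_cast at h
  linear_combination h

theorem rb {K : Type} [Field K] [NumberField K] {a : K} {pl : List (Place K)} {ph : List (K →+* ℝ)}
    {w : List (IsDedekindDomain.HeightOneSpectrum (NumberField.RingOfIntegers K))}
    (hP : Pack K FDP15 a pl ph w) : cval a vs 14 = (-((4 * (cval a vs 29 * ((cval a vs 26) ^ 2))))) := by
  have h : (cval a vs 14 + (-((-((((4 : ℤ) : K) * (cval a vs 29 * ((cval a vs 26) ^ 2)))))))) = 0 :=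
    hP.rel vs (.add (.var 14) (.neg (.neg (.mul (.num 4) (.mul (.var 29) (.sq (.var 26))))))) (by decide +kernel)
  have h0 : cval a vs 0 = a := by simp [cval, vs, ev]
  try rw [h0] at h
  try push_cast at h
  linear_combination h

theorem rmu {K : Type} [Field K] [NumberField K] {a : K} {pl : List (Place K)} {ph : List (K →+* ℝ)}
    {w : List (IsDedekindDomain.HeightOneSpectrum (NumberField.RingOfIntegers K))}
    (hP : Pack K FDP15 a pl ph w) : cval a vs 27 = (-((cval a vs 29 * cval a vs 26))) := by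
  have h : (cval a vs 27 + (-((-((cval a vs 29 * cval a vs 26)))))) = 0 :=
    hP.rel vs (.add (.var 27) (.neg (.neg (.mul (.var 29) (.var 26))))) (by decide +kernel)
  have h0 : cval a vs 0 = a := by simp [cval, vs, ev]
  try rw [h0] at h
  try push_cast at h
  linear_combination h

theorem rdl {K : Type} [Field K] [NumberField K] {a : K} {pl : List (Place K)} {ph : List (K →+* ℝ)}
    {w : List (IsDedekindDomain.HeightOneSpectrum (NumberField.RingOfIntegers K))}
    (hP : Pack K FDP15 a pl ph w) : cval a vs 26 = (((2 * ((a) ^ 2)) - (2 * a)) - 1) := by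
  have h : (cval a vs 26 + (-((((((2 : ℤ) : K) * ((cval a vs 0) ^ 2)) + (-((((2 : ℤ) : K) * cval a vs 0)))) + (-(((1 : ℤ) : K))))))) = 0 :=
    hP.rel vs (.add (.var 26) (.neg (.add (.add (.mul (.num 2) (.sq (.var 0))) (.neg (.mul (.num 2) (.var 0)))) (.neg (.num 1))))) (by decide +kernel)
  have h0 : cval a vs 0 = a := by simp [cval, vs, ev]
  try rw [h0] at h
  try push_cast at h
  linear_combination h

theorem rP0 {K : Type} [Field K] [NumberField K] {a : K} {pl : List (Place K)} {ph : List (K →+* ℝ)}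
    {w : List (IsDedekindDomain.HeightOneSpectrum (NumberField.RingOfIntegers K))}
    (hP : Pack K FDP15 a pl ph w) : cval a vs 32 = (1 + (6 * cval a vs 29)) := by
  have h : (cval a vs 32 + (-((((1 : ℤ) : K) + (((6 : ℤ) : K) * cval a vs 29))))) = 0 :=
    hP.rel vs (.add (.var 32) (.neg (.add (.num 1) (.mul (.num 6) (.var 29))))) (by decide +kernel)
  have h0 : cval a vs 0 = a := by simp [cval, vs, ev]
  try rw [h0] at h
  try push_cast at h
  linear_combination h

theorem rQ0 {K : Type} [Field K] [NumberField K] {a : K} {pl : List (Place K)} {ph : List (K →+* ℝ)}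
    {w : List (IsDedekindDomain.HeightOneSpectrum (NumberField.RingOfIntegers K))}
    (hP : Pack K FDP15 a pl ph w) : cval a vs 33 = (7 - (6 * cval a vs 29)) := by
  have h : (cval a vs 33 + (-((((7 : ℤ) : K) + (-((((6 : ℤ) : K) * cval a vs 29))))))) = 0 :=
    hP.rel vs (.add (.var 33) (.neg (.add (.num 7) (.neg (.mul (.num 6) (.var 29)))))) (by decide +kernel)
  have h0 : cval a vs 0 = a := by simp [cval, vs, ev]
  try rw [h0] at h
  try push_cast at h
  linear_combination h

theorem rA0 {K : Type} [Field K] [NumberField K] {a : K} {pl : List (Place K)} {ph : List (K →+* ℝ)}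
    {w : List (IsDedekindDomain.HeightOneSpectrum (NumberField.RingOfIntegers K))}
    (hP : Pack K FDP15 a pl ph w) : cval a vs 35 = (cval a vs 32 + (2 * cval a vs 23)) := by
  have h : (cval a vs 35 + (-((cval a vs 32 + (((2 : ℤ) : K) * cval a vs 23))))) = 0 :=
    hP.rel vs (.add (.var 35) (.neg (.add (.var 32) (.mul (.num 2) (.var 23))))) (by decide +kernel)
  have h0 : cval a vs 0 = a := by simp [cval, vs, ev]
  try rw [h0] at h
  try push_cast at h
  linear_combination h

theorem rB0 {K : Type} [Field K] [NumberField K] {a : K} {pl : List (Place K)} {ph : List (K →+* ℝ)}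
    {w : List (IsDedekindDomain.HeightOneSpectrum (NumberField.RingOfIntegers K))}
    (hP : Pack K FDP15 a pl ph w) : (cval a vs 34 * cval a vs 26) = 1 := by
  have h : ((cval a vs 34 * cval a vs 26) + (-(((1 : ℤ) : K)))) = 0 :=
    hP.rel vs (.add (.mul (.var 34) (.var 26)) (.neg (.num 1))) (by decide +kernel)
  have h0 : cval a vs 0 = a := by simp [cval, vs, ev]
  try rw [h0] at h
  try push_cast at h
  linear_combination h

theorem rB1 {K : Type} [Field K] [NumberField K] {a : K} {pl : List (Place K)} {ph : List (K →+* ℝ)}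
    {w : List (IsDedekindDomain.HeightOneSpectrum (NumberField.RingOfIntegers K))}
    (hP : Pack K FDP15 a pl ph w) : ((cval a vs 34) ^ 2) = (-((cval a vs 35 * (cval a vs 33 + (2 * cval a vs 24))))) := by
  have h : (((cval a vs 34) ^ 2) + (-((-((cval a vs 35 * (cval a vs 33 + (((2 : ℤ) : K) * cval a vs 24)))))))) = 0 :=
    hP.rel vs (.add (.sq (.var 34)) (.neg (.neg (.mul (.var 35) (.add (.var 33) (.mul (.num 2) (.var 24))))))) (by decide +kernel)
  have h0 : cval a vs 0 = a := by simp [cval, vs, ev]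
  try rw [h0] at h
  try push_cast at h
  linear_combination h

theorem rx0 {K : Type} [Field K] [NumberField K] {a : K} {pl : List (Place K)} {ph : List (K →+* ℝ)}
    {w : List (IsDedekindDomain.HeightOneSpectrum (NumberField.RingOfIntegers K))}
    (hP : Pack K FDP15 a pl ph w) : cval a vs 30 = (cval a vs 27 * (cval a vs 34 + (cval a vs 26 + 2))) := by
  have h : (cval a vs 30 + (-((cval a vs 27 * (cval a vs 34 + (cval a vs 26 + ((2 : ℤ) : K))))))) = 0 :=
    hP.rel vs (.add (.var 30) (.neg (.mul (.var 27) (.add (.var 34) (.add (.var 26) (.num 2)))))) (by decide +kernel)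
  have h0 : cval a vs 0 = a := by simp [cval, vs, ev]
  try rw [h0] at h
  try push_cast at h
  linear_combination h

theorem core {K : Type} [Field K] [NumberField K] {a : K} {pl : List (Place K)} {ph : List (K →+* ℝ)}
    {w : List (IsDedekindDomain.HeightOneSpectrum (NumberField.RingOfIntegers K))}
    (hP : Pack K FDP15 a pl ph w) {G : Prop} (t p q B u x y dp dr dB du dx : K)
    (hdisc : Q2 3 (t - ((2 : ℤ) : K)))
    (hrp : p ^ 2 = (1 + (cval a vs 21 * ((t) ^ 2))))
    (hrq : q ^ 2 = (1 + (cval a vs 22 * ((t) ^ 2))))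
    (hcp : IsSquare (cval a vs 25 * (p + (cval a vs 23 * t))))
    (hcq : IsSquare (-((cval a vs 25 * (q + (cval a vs 24 * t))))))
    (hrB : B ^ 2 = (-(((p * q) + ((t * ((cval a vs 23 * q) + (cval a vs 24 * p))) + (cval a vs 28 * ((t) ^ 2)))))))
    (hcB : IsSquare (B * cval a vs 26))
    (hu : u = ((((B + 1)) ^ 2) * (B)⁻¹))
    (hx : x = (cval a vs 27 * u))
    (hon : On (cval a vs 13) (cval a vs 14) x y)
    (hdp : (p + cval a vs 32) * dp = (cval a vs 21 * (t + 2)))
    (hdr : (q + cval a vs 33) * dr = (cval a vs 22 * (t + 2)))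
    (hdB : (B + cval a vs 34) * dB = (-((((dp + cval a vs 23) * (q + (cval a vs 24 * t))) + (cval a vs 35 * (dr + cval a vs 24))))))
    (hdu : du = (dB * (1 - ((B)⁻¹ * cval a vs 26))))
    (hdx : dx = (cval a vs 27 * du))
    (hddn : (1 * t - 2) ≠ 0) (hdd : x - cval a vs 30 = (1 * t - 2) * dx) :
    G := by
  refine hP.cover (fr := [t, p, q, B, u, x, y, dp, dr, dB, du, dx]) (M := M) (cs := [[]]) rfl auto
    (l := [(2, 3)]) (by decide) ?_ hdisc fun tt kk hq => ?_
  · exact List.forall_mem_cons.2 ⟨⟨_, r0⟩, fun _ h => absurd h List.not_mem_nil⟩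
  · refine List.forall_mem_cons.2 ⟨?_, List.forall_mem_cons.2 ⟨?_, List.forall_mem_cons.2 ⟨?_, List.forall_mem_cons.2 ⟨?_, List.forall_mem_cons.2 ⟨?_, List.forall_mem_cons.2 ⟨?_, List.forall_mem_cons.2 ⟨?_, List.forall_mem_cons.2 ⟨?_, List.forall_mem_cons.2 ⟨?_, List.forall_mem_cons.2 ⟨?_, List.forall_mem_cons.2 ⟨?_, List.forall_mem_cons.2 ⟨?_, List.forall_mem_cons.2 ⟨?_, List.forall_mem_cons.2 ⟨?_, List.forall_mem_cons.2 ⟨?_, List.forall_mem_cons.2 ⟨?_, List.forall_mem_cons.2 ⟨?_, fun _ h => absurd h List.not_mem_nil⟩⟩⟩⟩⟩⟩⟩⟩⟩⟩⟩⟩⟩⟩⟩⟩⟩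
    · exact hq
    · exact hq
    · show p ^ 2 = (((1 : ℤ) : K) + (cval a vs 21 * ((t) ^ 2)))
      try push_cast
      linear_combination hrp
    · show q ^ 2 = (((1 : ℤ) : K) + (cval a vs 22 * ((t) ^ 2)))
      try push_cast
      linear_combination hrq
    · exact span_of_isSquare (x := (cval a vs 25 * (p + (cval a vs 23 * t)))) ((by push_cast; ring : (cval a vs 25 * (p + (cval a vs 23 * t))) = (cval a vs 25 * (p + (cval a vs 23 * t)))) ▸ hcp)
    · exact span_of_isSquare (x := (-((cval a vs 25 * (q + (cval a vs 24 * t)))))) ((by push_cast; ring : (-((cval a vs 25 * (q + (cval a vs 24 * t))))) = (-((cval a vs 25 * (q + (cval a vs 24 * t)))))) ▸ hcq)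
    · show B ^ 2 = (-(((p * q) + ((t * ((cval a vs 23 * q) + (cval a vs 24 * p))) + (cval a vs 28 * ((t) ^ 2))))))
      try push_cast
      linear_combination hrB
    · exact span_of_isSquare (x := (B * cval a vs 26)) ((by push_cast; ring : (B * cval a vs 26) = (B * cval a vs 26)) ▸ hcB)
    · show u = ((((B + ((1 : ℤ) : K))) ^ 2) * (B)⁻¹)
      try push_cast
      linear_combination hu
    · show x = (cval a vs 27 * u)
      try push_cast
      linear_combination hx
    · exact hon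
    · show (p + cval a vs 32) * dp = (cval a vs 21 * (t + ((2 : ℤ) : K)))
      try push_cast
      linear_combination hdp
    · show (q + cval a vs 33) * dr = (cval a vs 22 * (t + ((2 : ℤ) : K)))
      try push_cast
      linear_combination hdr
    · show (B + cval a vs 34) * dB = (-((((dp + cval a vs 23) * (q + (cval a vs 24 * t))) + (cval a vs 35 * (dr + cval a vs 24)))))
      try push_cast
      linear_combination hdB
    · show du = (dB * (((1 : ℤ) : K) + (-(((B)⁻¹ * cval a vs 26)))))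
      try push_cast
      linear_combination hdu
    · show dx = (cval a vs 27 * du)
      try push_cast
      linear_combination hdx
    · show (((1 : ℤ) : K) * t - ((2 : ℤ) : K)) ≠ 0 ∧ x - cval a vs 30 = (((1 : ℤ) : K) * t - ((2 : ℤ) : K)) * dx
      try push_cast
      exact ⟨by simpa using hddn, by linear_combination hdd⟩

end Pool.Agent.Lib.MP_ab8df0_nt.T.B8b3

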