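import Pool.Agent.Lib.MP_ab8df0_nt.T.B8b.L1
import Pool.Agent.Lib.MP_ab8df0_nt.T.B8b.L2
import Pool.Agent.Lib.MP_ab8df0_nt.T.B8b.L3
import Pool.Agent.Lib.MP_ab8df0_nt.T.B8b.Alg
import Pool.Agent.Lib.MP_ab8df0_nt.T.B8a.Emb
import Pool.Agent.Lib.MP_ab8df0_nt.P.P15

/-! The second class for the quartic equation over the golden ring. -/

namespace Pool.Agent.Lib.MP_ab8df0_nt.T.B8b

open Pool.Agent.Lib.MP_ab8df0_nt.B Pool.Agent.Lib.MP_ab8df0_nt.P Pool.Agent.Lib.MP_ab8df0_nt.C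
open Pool.Agent.Lib.MP_ab8df0_nt.T.B8a (emb emb_eq emb_s5)

variable {K : Type} [Field K] [NumberField K] {a : K} {pl : List (Place K)} {ph : List (K →+* ℝ)}
  {w : List (IsDedekindDomain.HeightOneSpectrum (NumberField.RingOfIntegers K))}

theorem lev2 (hP : Pack K FDP15 a pl ph w) {f k t p q B : K} (ef : f = cval a B8b1.vs 15)
    (ek : k = cval a B8b1.vs 12) (hd : Q2 3 (t - ((2 : ℤ) : K)))
    (hp : p ^ 2 = 1 + ((2 * f + 1) * k) ^ 2 * t ^ 2) (hq : q ^ 2 = 1 + k ^ 2 * t ^ 2)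
    (c1 : IsSquare ((2 * f - 1) * (p + (2 * f + 1) * k * t)))
    (c2 : IsSquare (-((2 * f - 1) * (q + k * t))))
    (hB : B ^ 2 = -((p + (2 * f + 1) * k * t) * (q + k * t)))
    (hs : IsSquare (B * (a ^ 2 - 2))) : False := by
  have hf : f ^ 2 = f + 1 := ef ▸ B8b1.rp2 hP
  have hk : k ^ 2 = 21 - 12 * f := ef ▸ ek ▸ B8b1.rk2 hP
  have e1 : cval a B8b2.vs 24 = f := ef ▸ (B8b2.rph hP).trans (B8b1.rph hP).symm
  have e2 : cval a B8b2.vs 19 = k := ek ▸ (B8b2.rk hP).trans (B8b1.rk hP).symm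
  rw [← B8b2.rdl hP] at hs
  obtain ⟨y, hy⟩ := onE hf hp hq hB hs
  refine B8b2.core hP t p q B _ _ y hd ?_ ?_ ?_ ?_ ?_ hs rfl rfl ?_
  · rw [B8b2.rc1 hP, e1]
    linear_combination hp + (2 * f + 1) ^ 2 * t ^ 2 * hk + (-48 * f - 12) * t ^ 2 * hf
  · rw [B8b2.rc2 hP, e1]
    linear_combination hq + t ^ 2 * hk
  · rwa [B8b2.rs5 hP, B8b2.rk1 hP, e1, e2]
  · rwa [B8b2.rs5 hP, e1, e2]
  · rw [B8b2.rk12 hP, B8b2.rk1 hP, e1, e2]
    linear_combination hB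
  · rwa [B8b2.ra hP, B8b2.rb hP, B8b2.rmu hP, e1]

theorem lev3 (hP : Pack K FDP15 a pl ph w) {f k t p q B : K} (ef : f = cval a B8b1.vs 15)
    (ek : k = cval a B8b1.vs 12) (hd : Q2 3 (t - ((2 : ℤ) : K))) (ht : t - 2 ≠ 0)
    (hp : p ^ 2 = 1 + ((2 * f + 1) * k) ^ 2 * t ^ 2) (hq : q ^ 2 = 1 + k ^ 2 * t ^ 2)
    (c1 : IsSquare ((2 * f - 1) * (p + (2 * f + 1) * k * t)))
    (c2 : IsSquare (-((2 * f - 1) * (q + k * t))))
    (hB : B ^ 2 = -((p + (2 * f + 1) * k * t) * (q + k * t)))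
    (hs : IsSquare (B * (2 * a ^ 2 - 2 * a - 1))) : False := by
  have hf : f ^ 2 = f + 1 := ef ▸ B8b1.rp2 hP
  have hk : k ^ 2 = 21 - 12 * f := ef ▸ ek ▸ B8b1.rk2 hP
  have e1 : cval a B8b3.vs 29 = f := ef ▸ (B8b3.rph hP).trans (B8b1.rph hP).symm
  have e2 : cval a B8b3.vs 24 = k := ek ▸ (B8b3.rk hP).trans (B8b1.rk hP).symm
  have h0 := neB hp hq hB
  rw [← B8b3.rdl hP] at hs
  obtain ⟨y, hy⟩ := onE hf hp hq hB hs
  have b0 := B8b3.rB0 hP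
  have b1 := B8b3.rB1 hP
  rw [B8b3.rA0 hP, B8b3.rP0 hP, B8b3.rQ0 hP, B8b3.rk1 hP, e1, e2] at b1
  have hp1 : p ^ 2 = 1 + (9 + 12 * f) * t ^ 2 := by
    linear_combination hp + (2 * f + 1) ^ 2 * t ^ 2 * hk + (-48 * f - 12) * t ^ 2 * hf
  have hq1 : q ^ 2 = 1 + (21 - 12 * f) * t ^ 2 := by linear_combination hq + t ^ 2 * hk
  refine B8b3.core hP t p q B _ _ y ((p - (1 + 6 * f)) / (t - 2)) ((q - (7 - 6 * f)) / (t - 2))
    ((B - cval a B8b3.vs 34) / (t - 2)) _ _ hd ?_ ?_ ?_ ?_ ?_ hs rfl rfl ?_ ?_ ?_ ?_ rfl rfl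
    (by rwa [one_mul]) ?_
  · rwa [B8b3.rc1 hP, e1]
  · rwa [B8b3.rc2 hP, e1]
  · rwa [B8b3.rs5 hP, B8b3.rk1 hP, e1, e2]
  · rwa [B8b3.rs5 hP, e1, e2]
  · rw [B8b3.rk12 hP, B8b3.rk1 hP, e1, e2]
    linear_combination hB
  · rwa [B8b3.ra hP, B8b3.rb hP, B8b3.rmu hP, e1]
  · rw [B8b3.rP0 hP, B8b3.rc1 hP, e1]
    field_simp
    linear_combination hp1 - 36 * hf
  · rw [B8b3.rQ0 hP, B8b3.rc2 hP, e1]
    field_simp
    linear_combination hq1 - 36 * hf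
  · rw [B8b3.rA0 hP, B8b3.rP0 hP, B8b3.rk1 hP, e1, e2]
    generalize cval a B8b3.vs 34 = B0 at b1 ⊢
    field_simp
    linear_combination hB - b1
  · rw [B8b3.rx0 hP, one_mul]
    generalize cval a B8b3.vs 34 = B0 at b0 ⊢
    generalize cval a B8b3.vs 26 = d at b0 ⊢
    generalize cval a B8b3.vs 27 = mu
    field_simp
    linear_combination (-mu) * b0

theorem half (hP : Pack K FDP15 a pl ph w) (s v : ℤ) (p m : O) (hc : IsCoprime s (30 * v))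
    (hv : v % 8 = 2) (hp : p ^ 2 = (s : O) ^ 4 + c8 * (v : O) ^ 2)
    (hm : (s : O) ^ 2 + p = 2 * s5 * m ^ 2) : v = 2 * s ^ 2 := by
  obtain ⟨f, ef⟩ : ∃ f : K, f = cval a B8b1.vs 15 := ⟨_, rfl⟩
  obtain ⟨k, ek⟩ : ∃ k : K, k = cval a B8b1.vs 12 := ⟨_, rfl⟩
  have hf : f ^ 2 = f + 1 := ef ▸ B8b1.rp2 hP
  have hk : k ^ 2 = 21 - 12 * f := ef ▸ ek ▸ B8b1.rk2 hP
  have hg : (1 - f) ^ 2 = (1 - f) + 1 := by linear_combination hf
  have hk1 : ((2 * f + 1) * k) ^ 2 = 9 + 12 * f := by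
    linear_combination (2 * f + 1) ^ 2 * hk + (-48 * f - 12) * hf
  have h45 : ((2 * f + 1) * k * k) ^ 2 = 45 := by
    linear_combination k ^ 2 * hk1 + (9 + 12 * f) * hk - 144 * hf
  have n1 : (2 * f + 1) * k * k ≠ 0 := fun h => by rw [h] at h45; norm_num at h45
  have n5 : 2 * f - 1 ≠ 0 := fun h => by
    have : (5 : K) = 0 := by linear_combination (2 * f - 1) * h - 4 * hf
    norm_num at this
  have e1 := emb_eq f hf hp
  have e2 := emb_eq (1 - f) hg hp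
  have f1 := congrArg (emb f hf) hm
  have f2 := congrArg (emb (1 - f) hg) hm
  simp only [map_pow, map_add, map_mul, map_intCast, map_ofNat, emb_s5] at f1 f2
  generalize emb f hf p = p1 at e1 f1
  generalize emb (1 - f) hg p = p2 at e2 f2
  generalize emb f hf m = m1 at f1
  generalize emb (1 - f) hg m = m2 at f2
  have hs : Odd s := by
    obtain ⟨x, y, h⟩ := hc
    rcases Int.even_or_odd s with ⟨j, rfl⟩ | h1
    · have : 2 * (x * j + 15 * y * v) = 1 := by linear_combination h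
      omega
    · exact h1
  have hs0 : (s : K) ≠ 0 := Int.cast_ne_zero.2 fun h0 => by simp [h0] at hs
  have hv0 : (v : K) ≠ 0 := Int.cast_ne_zero.2 (by omega)
  by_contra hne
  have ht0 : (v : K) / s ^ 2 ≠ 0 := div_ne_zero hv0 (pow_ne_zero 2 hs0)
  have ht2 : (v : K) / s ^ 2 - 2 ≠ 0 := fun h => hne (by
    have : ((v : ℤ) : K) = ((2 * s ^ 2 : ℤ) : K) := by
      push_cast
      field_simp at h
      linear_combination h
    exact_mod_cast this)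
  have hd : Q2 3 ((v : K) / s ^ 2 - ((2 : ℤ) : K)) := by
    have h8 : (2 : ℤ) ^ 3 ∣ v - 2 * s ^ 2 := by
      obtain ⟨j, rfl⟩ := hs
      exact ⟨v / 8 - j ^ 2 - j, by
        have : v = 8 * (v / 8) + 2 := by omega
        linear_combination this⟩
    have := Q2.of_div (L := K) (hs.pow (n := 2)) h8
    rwa [Int.cast_pow] at this
  have g1 : (p1 / s ^ 2) ^ 2 = 1 + ((2 * f + 1) * k) ^ 2 * ((v : K) / s ^ 2) ^ 2 := by
    rw [hk1]
    field_simp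
    linear_combination e1
  have g2 : (p2 / s ^ 2) ^ 2 = 1 + k ^ 2 * ((v : K) / s ^ 2) ^ 2 := by
    rw [hk]
    field_simp
    linear_combination e2
  have c1 := sqA (S := 2 * f - 1) (mu := m1 / s) (left_ne_zero_of_mul n1) ht0 g1 (by
    field_simp
    linear_combination f1)
  have c2 := sqA (S := -(2 * f - 1)) (mu := m2 / s) (right_ne_zero_of_mul n1) ht0 g2 (by
    field_simp
    linear_combination f2)
  rw [neg_mul] at c2
  obtain ⟨B1, hB1⟩ := exB n5 c1 c2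
  obtain ⟨B, hB, hre⟩ : ∃ B : K, B ^ 2 = B1 ^ 2 ∧ ∀ φ, ph[0]? = some φ → 0 < φ B := by
    rcases h : ph[0]? with _ | φ
    · exact ⟨B1, rfl, fun _ h1 => by cases h1⟩
    · rcases lt_or_gt_of_ne ((map_ne_zero φ).2 (neB g1 g2 hB1)) with h1 | h1
      · exact ⟨-B1, by ring, fun ψ h2 => by cases h2; rw [map_neg]; linarith⟩
      · exact ⟨B1, rfl, fun ψ h2 => by cases h2; exact h1⟩
  rw [hB1] at hB
  refine B8b1.core hP (G := False) (v / s ^ 2) (p1 / s ^ 2) (p2 / s ^ 2) B hd ?_ ?_ ?_ ?_ ?_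
    (fun u hu => ?_) (fun i hi => ?_) (fun h => lev2 hP ef ek hd g1 g2 c1 c2 hB ?_)
    (fun h => lev3 hP ef ek hd ht2 g1 g2 c1 c2 hB ?_)
  · rwa [B8b1.rc1 hP, ← ef, ← hk1]
  · rwa [B8b1.rc2 hP, ← ef, ← hk]
  · rwa [B8b1.rs5 hP, B8b1.rk1 hP, ← ef, ← ek]
  · rwa [B8b1.rs5 hP, ← ef, ← ek]
  · rw [B8b1.rk12 hP, B8b1.rk1 hP, ← ef, ← ek]
    linear_combination hB
  · have i1 := hP.cint B8b1.vs 11 0 (by decide) u hu
    have i2 := hP.cint B8b1.vs 12 0 (by decide) u hu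
    rw [B8b1.rk1 hP, ← ef, ← ek] at i1
    rw [← ek] at i2
    exact evenB _ hc hs0 i1 i2 h45 g1 g2 hB
  · obtain rfl := List.mem_singleton.1 hi
    exact hre
  · convert h using 2
    simp [B8b1.dl0, ev]
    ring
  · convert h using 2
    simp [B8b1.dl1, ev]
    ring

theorem main (hP : Pack K FDP15 a pl ph w) : BB8b := by
  intro s v p m hc hv hp hm
  rcases (by omega : v % 8 = 2 ∨ (-v) % 8 = 2) with h | h
  · exact Or.inl (half hP s v p m hc h hp hm)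
  · have := half hP s (-v) p m (by rw [mul_neg]; exact hc.neg_right) h
      (by rw [hp]; push_cast; ring) hm
    exact Or.inr (by linear_combination -this)

theorem bb : BB8b := by
  obtain ⟨pl, ph, w, hP⟩ := P15.pack
  exact main hP

end Pool.Agent.Lib.MP_ab8df0_nt.T.B8b
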